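import Pool.Agent.TH121.KT.Word3

/-!
# Products of copies of varieties with Weil numbers which satisfy no relations
-/

set_option autoImplicit false
set_option linter.unusedSectionVars false

namespace Pool.Agent.Y138.KC

open NumberField Polynomial Module Pool.Agent.TH121.KT

/-- There are no relations of degree at most `d` between the conjugates of `α` over the field
`T`. -/
structure ZeroProp {p : ℕ} [Fact p.Prime] (ι : Qb →+* PadicAlgCl p) {K : Type} [Field K]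
    [NumberField K] [IsCMField K] (α : K) (T : IntermediateField ℚ Qb) (d : ℕ) : Prop where
  unitary : ∀ φ : K →+* ℂ, ‖φ α‖ = 1
  zero : ∀ N : (K →+* Qb) → ℕ, ∑ σ, N σ ≤ d →
    (∀ h : GQ, (∀ x ∈ T, h x = x) → ∀ g, FF ι α N (h * g) = FF ι α N g) → ∀ σ, odd N σ = 0

noncomputable section

variable {r : ℕ} {K : Fin r → Type} [∀ i, Field (K i)] [∀ i, NumberField (K i)]
  [∀ i, IsCMField (K i)]
variable {p : ℕ} [Fact p.Prime] {ι : Qb →+* PadicAlgCl p} {α : ∀ i, K i}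

/-- **Relations are trivial**, with an integral power and a rational factor. -/
theorem balanced_rat' {N : (Σ i, (K i →+* Qb)) → ℕ} {w : Fin r → ℕ} {W : ℤ} {β : Qb} {x₀ : ℚ}
    (hx₀ : x₀ ≠ 0) (hβ0 : β ≠ 0)
    (hrel : ∏ x : Σ i, (K i →+* Qb), (x.2 (α x.1)) ^ (w x.1 * N x) = β ^ W * (x₀ : Qb))
    (hw : ∀ i, 0 < w i) {L : IntermediateField ℚ Qb} {Q : ℚ[X]}
    (hL : SlopesFixed p ι L Q) (hβ : aeval β Q = 0) {S : Fin r → IntermediateField ℚ Qb}
    (hS : ∀ i, IsSlopeField p ι (S i) (α i)) {d : Fin r → ℕ}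
    (hind : ∀ i, ZeroProp ι (α i) (tower S L i) (d i))
    (hd : ∀ i, ∑ σ : K i →+* Qb, N ⟨i, σ⟩ ≤ d i)
    (x : Σ i, (K i →+* Qb)) : N x = N (bar x) := by
  classical
  let NN : ∀ i, (K i →+* Qb) → ℕ := fun i σ => N ⟨i, σ⟩
  have hsum : ∀ g : GQ, ∑ i, (w i : ℝ) * FF ι (α i) (NN i) g =
      W * Real.log ‖ι (g β)‖ + Real.log ‖ι (x₀ : Qb)‖ := by
    intro g
    have h1 := congrArg (fun z => Real.log ‖ι (g z)‖) hrel
    simp only [map_prod, map_pow, norm_prod, norm_pow, map_mul, map_zpow₀, norm_mul, norm_zpow,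
      map_ratCast] at h1
    rw [Real.log_mul, Real.log_zpow, Real.log_prod] at h1
    rotate_left
    · intro x _
      exact pow_ne_zero _ (norm_pos' (hind x.1).unitary (act g x.2)).ne'
    · refine zpow_ne_zero _ ?_
      rw [norm_ne_zero_iff, ne_eq, map_eq_zero, map_eq_zero]
      exact hβ0
    · rw [norm_ne_zero_iff]
      exact Rat.cast_ne_zero.2 hx₀
    rw [map_ratCast, ← h1, Fintype.sum_sigma]
    refine Finset.sum_congr rfl fun i _ => ?_
    unfold FF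
    rw [Finset.mul_sum]
    refine Finset.sum_congr rfl fun σ _ => ?_
    rw [Real.log_pow]
    push_cast
    ring
  have key : ∀ i, ∀ σ, odd (NN i) σ = 0 := by
    intro i
    induction i using WellFoundedGT.induction with
    | _ i ih =>
    refine (hind i).zero (NN i) (hd i) ?_
    intro h hh g
    have hLt : L ≤ tower S L i := le_sup_left
    have hgβ : aeval (g β) Q = 0 := by
      rw [Polynomial.aeval_algHom_apply g β Q, hβ, map_zero]
    have h1 := hsum g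
    have h2 := hsum (h * g)
    have h3 : ‖ι ((h * g) β)‖ = ‖ι (g β)‖ :=
      hL h (fun x hx => hh x (hLt hx)) (g β) hgβ
    rw [h3, ← h1, ← sub_eq_zero, ← Finset.sum_sub_distrib] at h2
    rw [Finset.sum_eq_single i] at h2
    · have h4 : (w i : ℝ) ≠ 0 := Nat.cast_ne_zero.2 (hw i).ne'
      have h5 : (w i : ℝ) * (FF ι (α i) (NN i) (h * g) - FF ι (α i) (NN i) g) = 0 := by
        rw [← h2]
        ring
      have h6 := (mul_eq_zero.1 h5).resolve_left h4
      linarith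
    · intro j _ hji
      rcases lt_or_gt_of_ne hji with hlt | hlt
      · have h4 : S j ≤ tower S L i :=
          le_sup_of_le_right (le_iSup (fun j : {j : Fin r // j < i} => S j.1) ⟨j, hlt⟩)
        rw [FF_slope (hS j) (fun x hx => hh x (h4 hx)), sub_self]
      · rw [FF_zero (hind j).unitary (ih j hlt), FF_zero (hind j).unitary (ih j hlt), sub_self]
    · intro h0
      exact absurd (Finset.mem_univ i) h0
  obtain ⟨i, σ⟩ := x
  have h1 := key i σ
  unfold odd at h1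
  change N ⟨i, σ⟩ = N ⟨i, cj σ⟩
  change (N ⟨i, σ⟩ : ℤ) - N ⟨i, cj σ⟩ = 0 at h1
  omega

/-- **Balance.** If a product of conjugates times a power of a root of `Q` is rational, the
multiplicities are invariant under the complex conjugations. -/
theorem balanced_of_relation' {Ω : Type*} [Field Ω] [CharZero Ω] [IsAlgClosed Ω]
    (n : ∀ i, (K i →+* Ω) → ℕ) {w : Fin r → ℕ} (hw : ∀ i, 0 < w i) {W : ℕ} {β : Ω} {x₀ : ℚ}
    (hx₀ : x₀ ≠ 0) (hβ0 : β ≠ 0) (hrel : letterProd α w n * β ^ W = (x₀ : Ω))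
    {Q : ℚ[X]} (hQ : Q ≠ 0) (hβ : aeval β Q = 0) {L : IntermediateField ℚ Qb}
    (hL : SlopesFixed p ι L Q) {S : Fin r → IntermediateField ℚ Qb}
    (hS : ∀ i, IsSlopeField p ι (S i) (α i)) {d : Fin r → ℕ}
    (hind : ∀ i, ZeroProp ι (α i) (tower S L i) (d i))
    (hd : ∀ i, ∑ σ : K i →+* Ω, n i σ ≤ d i) (i : Fin r) (σ : K i →+* Ω) :
    n i σ = n i (cj σ) := by
  classical
  let τ : Qb →+* Ω := (IsAlgClosed.lift : Qb →ₐ[ℚ] Ω).toRingHom
  obtain ⟨β', hβ', hτβ⟩ := exists_root τ hQ hβ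
  have hbij : ∀ i, Function.Bijective (fun ρ : K i →+* Qb => τ.comp ρ) := by
    intro i
    constructor
    · intro ρ ρ' h
      ext x
      exact τ.injective (RingHom.congr_fun h x)
    · intro σ
      obtain ⟨ρ, hρ⟩ := exists_lift τ σ
      exact ⟨ρ, hρ⟩
  let N : (Σ i, (K i →+* Qb)) → ℕ := fun x => n x.1 (τ.comp x.2)
  have hprod : letterProd α w n =
      τ (∏ x : Σ i, (K i →+* Qb), (x.2 (α x.1)) ^ (w x.1 * N x)) := by
    rw [map_prod, Fintype.prod_sigma]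
    unfold letterProd
    refine Finset.prod_congr rfl fun i _ => ?_
    refine (Fintype.prod_equiv (Equiv.ofBijective _ (hbij i)) _ _ fun ρ => ?_).symm
    rw [map_pow]
    rfl
  have hd' : ∀ i, ∑ ρ : K i →+* Qb, N ⟨i, ρ⟩ ≤ d i := by
    intro i
    refine le_trans (le_of_eq ?_) (hd i)
    exact Fintype.sum_equiv (Equiv.ofBijective _ (hbij i)) _ _ fun ρ => rfl
  have hβ0' : β' ≠ 0 := by
    rintro rfl
    rw [map_zero] at hτβ
    exact hβ0 hτβ.symm
  have hbal := balanced_rat' (N := N) (w := w) (W := -(W : ℤ)) (β := β') (x₀ := x₀) hx₀ hβ0' ?_ hw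
    hL hβ' hS hind hd'
  · obtain ⟨ρ, rfl⟩ := (hbij i).2 σ
    exact hbal ⟨i, ρ⟩
  · apply τ.injective
    rw [← hprod, map_mul, map_zpow₀, hτβ, map_ratCast, ← hrel, zpow_neg, zpow_natCast]
    field_simp

end

end Pool.Agent.Y138.KC

open CategoryTheory AlgebraicGeometry NumberField
open scoped TensorProduct

universe u v

namespace Pool.Agent.Y138.KC

open Pool.Agent.H914 Pool.Agent.H914.VarClass Pool.Agent.H914.VarClass.Obj
  Pool.Agent.H914.WeilCohomology Pool.Agent.H281R3.HT Pool.Agent.W552 Pool.Agent.W534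
  Pool.Agent.W458.RK Pool.Agent.W458.MF Pool.Agent.TH132.A Pool.Agent.W536.RR
  Pool.Agent.TH121.KT

variable {k : Type u} [Field k] {𝒱 : VarClass k} {ops : CycleOps 𝒱}
  {W : WeilCohomology.{u, v} ops} {p : ℕ} [Fact p.Prime] {Φ : FrobSystem W p}
  {ι : Qb →+* PadicAlgCl p}
  {r : ℕ} {X : Fin r → 𝒱.Obj} {e : Fin r → ℕ} {K : Fin r → Type} [∀ i, Field (K i)]
  [∀ i, NumberField (K i)] [∀ i, IsCMField (K i)]
  {α : ∀ i, K i} {Z U : 𝒱.Obj}

/-- **The Tate conjecture for the products of copies of the `X i` with all independent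
varieties.** -/
theorem tateTimesP_products' [IsAlgClosed W.K] (hT : ∀ i, HasWeilNumber Φ (X i) (e i) (α i))
    {n : Fin r → ℕ} (hZ : IsProductOfCopies W X n Z)
    {L : IntermediateField ℚ Qb} {S : Fin r → IntermediateField ℚ Qb}
    (hS : ∀ i, IsSlopeField p ι (S i) (α i))
    (hind : ∀ i, ZeroProp ι (α i) (tower S L i) (n i)) :
    TateTimesP Φ (InL p ι L) Z := by
  classical
  intro s hs V _ _ _ G hG c a x hx
  have hp0 : (p : W.K) ≠ 0 := by exact_mod_cast (Fact.out : p.Prime).ne_zero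
  have hpq : (p : ℚ) ≠ 0 := by exact_mod_cast (Fact.out : p.Prime).ne_zero
  have hcard : ∀ t, ((card Φ Z t : ℚ)) ≠ 0 := by
    intro t
    rw [W534.card]
    push_cast
    exact pow_ne_zero _ hpq
  have hQ : ∀ t, (card Φ Z t : W.K) ≠ 0 := fun t => card_ne Φ t
  refine (tensor_killed (F := frob Φ Z s) (G := G) (card Φ Z s : W.K) (hQ s) c
    (fun i => cycSub W Z i) (fun i y hy => cyc_killed Φ hy) ?_ a x).1 hx
  intro μ ν N hN hν hrel
  refine le_trans ?_ algSpan_le_cyc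
  intro y hy
  obtain ⟨Q, ν₀, t, ht, hQ0, hLQ, hν₀, rfl⟩ := hG ν hν
  have hν0 : ν₀ ≠ 0 := by
    rintro rfl
    rw [zero_pow ht.ne', mul_zero, zero_pow hN.ne'] at hrel
    exact pow_ne_zero _ (zpow_ne_zero _ (hQ s)) hrel.symm
  obtain ⟨t₀, ht₀, h0⟩ := span_good (span_words hT hZ y)
  have h1 := h0 s hs
  set T := t₀ * s with hTdef
  have hTs : T = s * t₀ := mul_comm t₀ s
  have h2 : y ∈ Module.End.maxGenEigenspace (frob Φ Z T) (μ ^ t₀) := by
    rw [hTs, frob_mul_eq]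
    exact gen_pow_of_gen hy _
  have heig : ∀ v ∈ GoodWords Φ X e α n Z T, ∃ (ω : W.K) (A M : ℕ) (L : List (Letter Φ X e α Z))
      (C : W.H Z), frob Φ Z T v = ω • v ∧ 0 < M ∧ C ∈ algSpan W Z ∧ v = wordVal L * C ∧
      (∀ i, ∑ σ : K i →+* W.K, mult L i σ ≤ n i) ∧
      ω ^ (2 * (∏ j, (e j * Φ.e (X j))) * M) = (card Φ Z T : W.K) ^ A *
        letterProd α (expo Φ X e Z T M) (mult L) := by
    rintro v ⟨L, j, M, c, hM, hc, hn, hL, hcyc, rfl⟩
    obtain ⟨ω, A, h3, h4⟩ := word_eigen L hL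
    refine ⟨ω * (card Φ Z T : W.K) ^ j, A + j * (2 * (∏ j, (e j * Φ.e (X j))) * M), M, L,
      W.cl Z c, ?_, hM, cl_mem_algSpan hc, rfl, hn, ?_⟩
    · rw [frob_mul_apply, h3, hcyc, smul_mul_smul_comm]
    · rw [mul_pow, h4, prod_letters, pow_add, ← pow_mul]
      ring
  have h3 := mem_span_gen (T := frob Φ Z T) (fun v hv => by
    obtain ⟨ω, _, _, _, _, h, _⟩ := heig v hv
    exact ⟨ω, eig_mem_gen h⟩) h1 h2
  refine (Submodule.span_le (p := algSpan W Z)).2 ?_ h3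
  rintro v ⟨hv, hvμ⟩
  by_cases hv0 : v = 0
  · rw [hv0]
    exact Submodule.zero_mem _
  obtain ⟨ω, A, M, Lw, C, h4, hM, hC, hvL, hn, h5⟩ := heig v hv
  have h6 : ω = μ ^ t₀ := eq_of_mem_gen (eig_mem_gen h4) hvμ hv0
  -- the relation
  let E : ℕ := 2 * (∏ j, (e j * Φ.e (X j))) * M
  have hE : 0 < E := Nat.mul_pos (Nat.mul_pos two_pos (Finset.prod_pos fun j _ =>
    Nat.mul_pos (hT j).pos (Φ.e_pos _))) hM
  let w : Fin r → ℕ := expo Φ X e Z T M
  have hTpos : 0 < T := Nat.mul_pos ht₀ hs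
  have hw : ∀ i, 0 < w i := fun i => Nat.mul_pos (Nat.mul_pos (Nat.mul_pos two_pos
    (Nat.mul_pos hTpos (Φ.e_pos _))) hM) (Finset.prod_pos fun j _ =>
    Nat.mul_pos (hT j).pos (Φ.e_pos _))
  let x₀ : ℚ := ((card Φ Z s : ℚ) ^ c) ^ (N * (t₀ * E)) * (((card Φ Z T : ℚ) ^ A) ^ N)⁻¹
  have hx₀ : x₀ ≠ 0 := mul_ne_zero (pow_ne_zero _ (zpow_ne_zero _ (hcard s)))
    (inv_ne_zero (pow_ne_zero _ (pow_ne_zero _ (hcard T))))
  have h7 : letterProd α (fun i => N * w i) (mult Lw) * ν₀ ^ (t * (N * (t₀ * E))) =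
      (x₀ : W.K) := by
    rw [← letterProd_pow]
    have h8 : (μ * ν₀ ^ t) ^ (N * (t₀ * E)) = ((card Φ Z s : W.K) ^ c) ^ (N * (t₀ * E)) := by
      rw [pow_mul, hrel, ← pow_mul]
    have h9 : μ ^ (N * (t₀ * E)) = ((card Φ Z T : W.K) ^ A) ^ N *
        letterProd α w (mult Lw) ^ N := by
      rw [← mul_pow, ← h5, h6, ← pow_mul, ← pow_mul]
      congr 1
      simp only [E]
      ring
    rw [mul_pow, h9] at h8
    have h10 : (x₀ : W.K) = ((card Φ Z s : W.K) ^ c) ^ (N * (t₀ * E)) *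
        (((card Φ Z T : W.K) ^ A) ^ N)⁻¹ := by
      simp only [x₀]
      push_cast
      rfl
    have h11 : ((card Φ Z T : W.K) ^ A) ^ N ≠ 0 := pow_ne_zero _ (pow_ne_zero _ (hQ T))
    rw [h10, ← h8, pow_mul ν₀ t]
    generalize ((card Φ Z T : W.K) ^ A) ^ N = B at h11
    field_simp
  have hbal := balanced_of_relation' (mult Lw) (w := fun i => N * w i)
    (fun i => Nat.mul_pos hN (hw i)) hx₀ hν0 h7 hQ0 hν₀ hLQ hS hind hn
  rw [hvL]
  refine algSpan_mul (balanced_alg hT (fun i => (hind i).unitary) Lw.length Lw le_rfl ?_) hC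
  rintro ⟨i, σ⟩
  have h12 := hbal i σ
  unfold mult at h12
  exact h12

end Pool.Agent.Y138.KC
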