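import Pool.Agent.TH121.KT.WordDefs
import Pool.Agent.W517.K3.Defs

/-!
# Powers of K3 surfaces: definitions
-/

set_option autoImplicit false

open CategoryTheory AlgebraicGeometry NumberField

universe u v

namespace Pool.Agent.Y138.KC

open Pool.Agent.H914 Pool.Agent.H914.VarClass Pool.Agent.H914.VarClass.Obj
  Pool.Agent.H914.WeilCohomology Pool.Agent.H281R3.HT Pool.Agent.W534

/-- `Z` is a product, with any bracketing, of `n` copies of `X` and of varieties whose cohomology is
spanned by the classes of algebraic cycles (for example projective spaces). -/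
inductive IsPower {k : Type u} [Field k] {𝒱 : VarClass k} {ops : CycleOps 𝒱}
    (W : WeilCohomology.{u, v} ops) (X : 𝒱.Obj) : ℕ → 𝒱.Obj → Prop
  | alg {Y : 𝒱.Obj} : algSpan W Y = ⊤ → IsPower W X 0 Y
  | base : IsPower W X 1 X
  | prod {m n : ℕ} {Y Z : 𝒱.Obj} : IsPower W X m Y → IsPower W X n Z →
      IsPower W X (m + n) (Y.prod Z)

/-- The CM field `E` is *independent* of the field `L`: some automorphism of the algebraic closure of
`ℚ` is the identity on `L` and the complex conjugation on all conjugates of `E` (if `L` is a Galois
extension of `ℚ`: the intersection of `L` and of the Galois closure of `E` is totally real). -/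
def IsIndependentField (E : Type) [Field E] [NumberField E] [IsCMField E]
    (L : IntermediateField ℚ (AlgebraicClosure ℚ)) : Prop :=
  ∃ h : AlgebraicClosure ℚ ≃ₐ[ℚ] AlgebraicClosure ℚ, (∀ x ∈ L, h x = x) ∧
    ∀ (σ : E →+* AlgebraicClosure ℚ) (x : E), h (σ x) = σ (IsCMField.complexConj E x)

/-- The pairs `(d, m)` for which there may be multiplicative relations between three conjugates of a
Frobenius number `α` of a K3 surface with `[ℚ(α) : ℚ] = 2 d` and local degree `m`. -/
def exceptionalPairs : Finset (ℕ × ℕ) :=
  {(3, 2), (6, 2), (6, 3), (6, 4), (9, 2), (9, 4), (9, 6), (10, 4), (10, 6)}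

/-- The pairs `(d, m)` with `m` odd for which there may be nontrivial multiplicative relations between
the conjugates of a Frobenius number `α` of a K3 surface with `[ℚ(α) : ℚ] = 2 d` and local degree
`m`. -/
def exceptionalOddPairs : Finset (ℕ × ℕ) := {(6, 3), (9, 3), (10, 3), (10, 5)}

end Pool.Agent.Y138.KC
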