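import Pool.Agent.Y138.KC.Nine
import Pool.Agent.Y138.KC.Defs

/-!
# One pair of points with value zero, and the relations for odd local degrees
-/

set_option autoImplicit false
set_option linter.unusedSectionVars false

namespace Pool.Agent.Y138.KC

open Finset Pool.Agent.W517.K3

section pred

variable {G X : Type*} [Group G] [Finite G] [MulAction G X] [Fintype X] [DecidableEq X]
  {c : X → X} {v : X → ℤ} (hS : Sgn G c v)
include hS

/-- **One pair of points with value zero, and an odd number of points with value one: there are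
no relations.** -/
theorem zero_pred (hZ : (Lv v 0).card = 2) (hm : Odd (Lv v 1).card) {n : X → ℤ}
    (hn : Rel G c v n) : n = fun _ => 0 := by
  have hG := Fintype.ofFinite G
  by_contra hn0
  obtain ⟨t₀, ht₀⟩ := hS.ex
  obtain ⟨z, hz⟩ : (Lv v 0).Nonempty := Finset.card_pos.1 (by omega)
  have hvz : v z = 0 := mem_Lv.1 hz
  have hLv : Lv v 0 = {z, c z} := by
    symm
    apply Finset.eq_of_subset_of_card_le
    · intro x hx
      rw [Finset.mem_insert, Finset.mem_singleton] at hx
      rcases hx with rfl | rfl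
      · exact hz
      · rw [mem_Lv, hS.odd, hvz, neg_zero]
    · rw [hZ, Finset.card_pair (c_ne hS z).symm]
  have hzero : ∀ x, v x = 0 → x = z ∨ x = c z := by
    intro x hx
    have : x ∈ Lv v 0 := mem_Lv.2 hx
    rw [hLv, Finset.mem_insert, Finset.mem_singleton] at this
    exact this
  -- invariant functions
  have hinv : ∀ (F H : X → X → ℤ), (∀ (g : G) x y, F (g • x) (g • y) = F x y) →
      (∀ (g : G) x y, H (g • x) (g • y) = H x y) → (∀ x y, F (c x) y = - F x y) →
      (∀ x y, F x (c y) = - F x y) → (∀ x y, H (c x) y = - H x y) →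
      (∀ x y, H x (c y) = - H x y) → ∀ x y, x ≠ y → x ≠ c y →
        H z t₀ * F x y = F z t₀ * H x y := by
    intro F H hF hH hF1 hF2 hH1 hH2 x y hxy hxy'
    obtain ⟨g, hg⟩ := hS.trans x z
    have hgy : v (g • y) ≠ 0 := by
      intro h
      rcases hzero _ h with h1 | h1
      · exact hxy (smul_left_cancel g (hg.trans h1.symm))
      · have h2 : g • c y = z := by rw [← hS.cg, h1, hS.cc]
        exact hxy' (smul_left_cancel g (hg.trans h2.symm))
    have key : ∀ y', v y' = 1 → H z t₀ * F z y' = F z t₀ * H z y' := by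
      intro y' hy'
      obtain ⟨δ, hδ, hδv⟩ := hS.place y' t₀ hy' ht₀
      have h1 := hzero (δ • z) (by rw [hδv, hvz])
      have h2 := hF δ z y'
      have h3 := hH δ z y'
      rw [hδ] at h2 h3
      rcases h1 with h1 | h1
      · rw [h1] at h2 h3
        rw [← h2, ← h3]
        ring
      · rw [h1, hF1] at h2
        rw [h1, hH1] at h3
        rw [← h2, ← h3]
        ring
    rw [← hF g x y, ← hH g x y, hg]
    rcases hS.val (g • y) with h | h | h
    · exact key _ h
    · exact absurd h hgy
    · have h1 := key (c (g • y)) (by rw [hS.odd, h]; norm_num)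
      rw [hF2, hH2] at h1
      linarith
  -- the functions
  set β : ℤ := ip G v z t₀ with hβ
  let F : X → X → ℤ := fun x y => ∑ w, ip G v x w * ip G v w y
  have hF1 : ∀ x y, F (c x) y = - F x y := by
    intro x y
    simp only [F, ip_c_left hS, ← Finset.sum_neg_distrib]
    exact Finset.sum_congr rfl fun w _ => by ring
  have hF2 : ∀ x y, F x (c y) = - F x y := by
    intro x y
    simp only [F, ip_c_right hS, ← Finset.sum_neg_distrib]
    exact Finset.sum_congr rfl fun w _ => by ring
  have hFg : ∀ (g : G) x y, F (g • x) (g • y) = F x y := by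
    intro g x y
    symm
    refine Fintype.sum_equiv (MulAction.toPerm g) _ _ fun w => ?_
    simp only [MulAction.toPerm_apply, ip_smul]
  have hoff : ∀ x y, x ≠ y → x ≠ c y → β * F x y = F z t₀ * ip G v x y :=
    hinv F (ip G v) hFg (fun g x y => ip_smul g x y) hF1 hF2 (ip_c_left hS) (ip_c_right hS)
  have hdiag : ∀ x, F x x = F z z := by
    intro x
    obtain ⟨g, rfl⟩ := hS.trans z x
    exact hFg g z z
  -- the diagonal terms
  set τ : ℤ := β * F z z - F z t₀ * ip G v z z with hτ
  have hall : ∀ x y, β * F x y = F z t₀ * ip G v x y + τ * ((if y = x then 1 else 0) -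
      (if y = c x then 1 else 0)) := by
    intro x y
    by_cases h1 : y = x
    · subst h1
      rw [if_pos rfl, if_neg (c_ne hS y).symm, hdiag, ip_self hS y z, hτ]
      ring
    · by_cases h2 : y = c x
      · subst h2
        rw [if_neg h1, if_pos rfl, hF2, ip_c_right hS, hdiag, ip_self hS x z, hτ]
        ring
      · rw [if_neg h1, if_neg h2, hoff x y (Ne.symm h1) (by
          intro h3
          apply h2
          rw [h3, hS.cc])]
        ring
  have hrel : ∀ (n : X → ℤ), Rel G c v n → ∀ x, ∑ y, ip G v x y * n y = 0 := by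
    intro n hn x
    unfold ip
    have h1 : ∀ y, (∑ g : G, v (g • x) * v (g • y)) * n y =
        ∑ g : G, v (g • x) * (n y * v (g • y)) := by
      intro y
      rw [Finset.sum_mul]
      exact Finset.sum_congr rfl fun g _ => by ring
    simp only [h1]
    rw [Finset.sum_comm]
    refine Finset.sum_eq_zero fun g _ => ?_
    rw [← Finset.mul_sum, hn.2 g, mul_zero]
  have hFn : ∀ x, ∑ y, F x y * n y = 0 := by
    intro x
    have h1 : ∀ y, F x y * n y = ∑ w, ip G v x w * (ip G v w y * n y) := by
      intro y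
      simp only [F]
      rw [Finset.sum_mul]
      exact Finset.sum_congr rfl fun w _ => by ring
    simp only [h1]
    rw [Finset.sum_comm]
    refine Finset.sum_eq_zero fun w _ => ?_
    rw [← Finset.mul_sum, hrel n hn w, mul_zero]
  obtain ⟨x₀, hx₀⟩ : ∃ x, n x ≠ 0 := by
    by_contra hcon
    push Not at hcon
    exact hn0 (funext hcon)
  have hdelta : ∀ (f : X → ℤ) (x : X), (∀ y, f (c y) = - f y) →
      ∑ y, ((if y = x then (1 : ℤ) else 0) - (if y = c x then 1 else 0)) * f y = 2 * f x := by
    intro f x hf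
    simp only [sub_mul, ite_mul, one_mul, zero_mul, Finset.sum_sub_distrib, Finset.sum_ite_eq',
      Finset.mem_univ, if_true]
    rw [hf]
    ring
  have hτ0 : τ = 0 := by
    have h1 : ∑ y, β * F x₀ y * n y = 0 := by
      have := hFn x₀
      calc ∑ y, β * F x₀ y * n y = β * ∑ y, F x₀ y * n y := by
            rw [Finset.mul_sum]; exact Finset.sum_congr rfl fun y _ => by ring
        _ = 0 := by rw [this, mul_zero]
    have h2 : ∑ y, β * F x₀ y * n y = F z t₀ * (∑ y, ip G v x₀ y * n y) +
        τ * ∑ y, ((if y = x₀ then (1 : ℤ) else 0) - (if y = c x₀ then 1 else 0)) * n y := by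
      rw [Finset.mul_sum, Finset.mul_sum, ← Finset.sum_add_distrib]
      refine Finset.sum_congr rfl fun y _ => ?_
      rw [hall]
      ring
    rw [h1, hrel n hn x₀, hdelta n x₀ hn.1] at h2
    have h3 : τ * n x₀ = 0 := by linarith
    exact (mul_eq_zero.1 h3).resolve_right hx₀
  have hall' : ∀ x y, β * F x y = F z t₀ * ip G v x y := by
    intro x y
    rw [hall x y, hτ0]
    ring
  -- the function `w`
  let w : X → ℤ := fun x => ∑ y, ip G v x y * v y
  have hwodd : ∀ x, w (c x) = - w x := by
    intro x
    simp only [w, ip_c_left hS, ← Finset.sum_neg_distrib]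
    exact Finset.sum_congr rfl fun y _ => by ring
  let u : X → ℤ := fun x => β * w x - F z t₀ * v x
  have huodd : ∀ x, u (c x) = - u x := by
    intro x
    simp only [u, hwodd, hS.odd]
    ring
  have hipw : ∀ x, β * ∑ y, ip G v x y * w y = F z t₀ * w x := by
    intro x
    have h1 : ∑ y, ip G v x y * w y = ∑ y, F x y * v y := by
      simp only [w, F, Finset.mul_sum, Finset.sum_mul]
      rw [Finset.sum_comm]
      exact Finset.sum_congr rfl fun a _ => Finset.sum_congr rfl fun b _ => by ring
    rw [h1, Finset.mul_sum]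
    simp only [w, Finset.mul_sum]
    refine Finset.sum_congr rfl fun y _ => ?_
    rw [← mul_assoc, hall' x y]
    ring
  have hipu : ∀ x, ∑ y, ip G v x y * u y = 0 := by
    intro x
    have h1 : ∑ y, ip G v x y * u y = β * (∑ y, ip G v x y * w y) - F z t₀ * w x := by
      have h2 : ∀ y, ip G v x y * u y = β * (ip G v x y * w y) -
          F z t₀ * (ip G v x y * v y) := by
        intro y
        change ip G v x y * (β * w y - F z t₀ * v y) = _
        ring
      rw [Finset.sum_congr rfl fun y _ => h2 y, Finset.sum_sub_distrib, ← Finset.mul_sum,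
        ← Finset.mul_sum]
    rw [h1, hipw x, sub_self]
  have hurel : Rel G c v u := by
    refine ⟨huodd, ?_⟩
    have h1 : ∑ x, u x * ∑ y, ip G v x y * u y = 0 :=
      Finset.sum_eq_zero fun x _ => by rw [hipu x, mul_zero]
    have h2 : ∑ x, u x * ∑ y, ip G v x y * u y = ∑ g : G, (∑ y, u y * v (g • y)) ^ 2 := by
      unfold ip
      simp only [Finset.mul_sum, Finset.sum_mul, sq]
      rw [Finset.sum_comm]
      have h3 : ∀ y : X, ∑ x, ∑ g : G, u x * (v (g • x) * v (g • y) * u y) =
          ∑ g : G, ∑ x, u x * (v (g • x) * v (g • y) * u y) := fun y => Finset.sum_comm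
      simp only [h3]
      rw [Finset.sum_comm]
      exact Finset.sum_congr rfl fun g _ => Finset.sum_congr rfl fun y _ =>
        Finset.sum_congr rfl fun x _ => by ring
    rw [h2] at h1
    intro g
    have h3 := (Finset.sum_eq_zero_iff_of_nonneg fun g _ => sq_nonneg _).1 h1 g (Finset.mem_univ g)
    exact pow_eq_zero_iff (two_ne_zero) |>.1 h3
  have hu0 : ∀ x, u x = 0 := by
    have h1 : ∑ x, u x * u x = 0 := by
      have h2 : ∑ x, u x * u x = β * (∑ y, v y * ∑ x, ip G v y x * u x) -
          F z t₀ * ∑ x, u x * v ((1 : G) • x) := by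
        have h3 : ∀ x, u x * u x = β * (u x * w x) - F z t₀ * (u x * v ((1 : G) • x)) := by
          intro x
          rw [one_smul]
          simp only [u]
          ring
        simp only [h3, Finset.sum_sub_distrib, ← Finset.mul_sum]
        congr 2
        simp only [w, Finset.mul_sum]
        rw [Finset.sum_comm]
        refine Finset.sum_congr rfl fun y _ => Finset.sum_congr rfl fun x _ => ?_
        rw [ip_comm x y]
        ring
      rw [h2, hurel.2 1, mul_zero, sub_zero]
      have h4 : ∑ y, v y * ∑ x, ip G v y x * u x = 0 :=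
        Finset.sum_eq_zero fun y _ => by rw [hipu y, mul_zero]
      rw [h4, mul_zero]
    intro x
    have h3 := (Finset.sum_eq_zero_iff_of_nonneg fun x _ => mul_self_nonneg (u x)).1 h1 x
      (Finset.mem_univ x)
    exact mul_self_eq_zero.1 h3
  -- the value at `z`
  have hwz : β * w z = 0 := by
    have := hu0 z
    simp only [u, hvz, mul_zero, sub_zero] at this
    exact this
  have hwz2 : w z = 2 * ∑ t ∈ Lv v 1, ip G v z t :=
    sum_odd (f := fun y => ip G v z y) (fun y => ip_c_right hS z y) hS.cc hS.odd hS.val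
  have hpm : ∀ t ∈ Lv v 1, ip G v z t = β ∨ ip G v z t = -β := by
    intro t ht
    rw [mem_Lv] at ht
    obtain ⟨δ, hδ, hδv⟩ := hS.place t t₀ ht ht₀
    have h1 := hzero (δ • z) (by rw [hδv, hvz])
    have h2 := ip_smul (v := v) δ z t
    rw [hδ] at h2
    rcases h1 with h1 | h1
    · rw [h1] at h2
      exact Or.inl h2.symm
    · rw [h1, ip_c_left hS] at h2
      right
      rw [← h2]
  have hβ0 : β = 0 := by
    by_contra hne
    have h1 : w z = 0 := (mul_eq_zero.1 hwz).resolve_left hne
    have h2 : ∀ t ∈ Lv v 1, ∃ k : ℤ, ip G v z t = β * (2 * k + 1) := by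
      intro t ht
      rcases hpm t ht with h | h
      · exact ⟨0, by rw [h]; ring⟩
      · exact ⟨-1, by rw [h]; ring⟩
    choose! k hk using h2
    rw [hwz2, Finset.sum_congr rfl hk, ← Finset.mul_sum] at h1
    have h3 : ∑ t ∈ Lv v 1, (2 * k t + 1) = 0 := by
      have h4 := (mul_eq_zero.1 h1).resolve_left two_ne_zero
      exact (mul_eq_zero.1 h4).resolve_left hne
    rw [Finset.sum_add_distrib, ← Finset.mul_sum, Finset.sum_const, nsmul_eq_mul, mul_one] at h3
    obtain ⟨r, hr⟩ := hm
    rw [hr] at h3
    push_cast at h3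
    omega
  -- the relations vanish
  have hoff0 : ∀ x y, x ≠ y → x ≠ c y → ip G v x y = 0 := by
    intro x y h1 h2
    obtain ⟨g, hg⟩ := hS.trans x z
    have hgy : v (g • y) ≠ 0 := by
      intro h
      rcases hzero _ h with h3 | h3
      · exact h1 (smul_left_cancel g (hg.trans h3.symm))
      · have h4 : g • c y = z := by rw [← hS.cg, h3, hS.cc]
        exact h2 (smul_left_cancel g (hg.trans h4.symm))
    rw [← ip_smul g x y, hg]
    rcases hS.val (g • y) with h | h | h
    · rcases hpm (g • y) (mem_Lv.2 h) with h5 | h5 <;> rw [h5, hβ0]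
      norm_num
    · exact absurd h hgy
    · have h6 : v (c (g • y)) = 1 := by rw [hS.odd, h]; norm_num
      have h7 : ip G v z (c (g • y)) = 0 := by
        rcases hpm _ (mem_Lv.2 h6) with h5 | h5 <;> rw [h5, hβ0]
        norm_num
      rw [ip_c_right hS] at h7
      omega
  have h1 := hrel n hn x₀
  have h2 : ∑ y, ip G v x₀ y * n y = ip G v x₀ x₀ *
      ∑ y, ((if y = x₀ then (1 : ℤ) else 0) - (if y = c x₀ then 1 else 0)) * n y := by
    rw [Finset.mul_sum]
    refine Finset.sum_congr rfl fun y _ => ?_
    by_cases e1 : y = x₀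
    · subst e1
      rw [if_pos rfl, if_neg (c_ne hS y).symm]
      ring
    · by_cases e2 : y = c x₀
      · subst e2
        rw [if_neg e1, if_pos rfl, ip_c_right hS]
        ring
      · rw [if_neg e1, if_neg e2, hoff0 x₀ y (Ne.symm e1) (by
          intro h3
          apply e2
          rw [h3, hS.cc])]
        ring
  rw [h2, hdelta n x₀ hn.1] at h1
  have h3 := ip_self_pos hS x₀
  rcases mul_eq_zero.1 h1 with h4 | h4
  · omega
  · omega

/-- **There are no relations for odd local degrees outside the exceptional cases.** -/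
theorem zero_odd {d m : ℕ} (hX : Fintype.card X = 2 * d) (hm : (Lv v 1).card = m)
    (hodd : Odd m) (hd : d ≤ 10) (hex : (d, m) ∉ exceptionalOddPairs) {n : X → ℤ}
    (hn : Rel G c v n) : n = fun _ => 0 := by
  by_contra hn0
  have hcard := card_add hS
  have hLv1 : (univ.filter (fun x => v x = 1)).card = m := hm
  have hLv0 : (univ.filter (fun x => v x = 0)).card = (Lv v 0).card := rfl
  by_cases h9 : d = 9 ∧ m = 9
  · obtain ⟨rfl, rfl⟩ := h9
    exact hn0 (zero_nine hS hX hm hn)
  by_cases h10 : d = 10 ∧ m = 9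
  · obtain ⟨rfl, rfl⟩ := h10
    exact hn0 (zero_pred hS (by omega) (by rw [hm]; exact hodd) hn)
  have hcase : m ≤ 2 ∨ d.Prime ∨ d = 4 ∨ (Odd m ∧ ∃ k, d = 2 ^ k) ∨ (m.Prime ∧ d < 2 * m) := by
    by_cases h8 : d = 8
    · exact Or.inr (Or.inr (Or.inr (Or.inl ⟨hodd, 3, by rw [h8]; norm_num⟩)))
    · have hfin : ∀ d ∈ Finset.range 11, ∀ m ∈ Finset.range (d + 1),
          (m % 2 = 1 ∧ (d, m) ∉ exceptionalOddPairs ∧ ¬ (d = 9 ∧ m = 9) ∧ ¬ (d = 10 ∧ m = 9) ∧
            ¬ d = 8) → (m ≤ 2 ∨ d ∈ ({2, 3, 5, 7} : Finset ℕ) ∨ d = 4 ∨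
              (m ∈ ({3, 5, 7} : Finset ℕ) ∧ d < 2 * m)) := by
        decide +kernel
      have hprime : ∀ a ∈ ({2, 3, 5, 7} : Finset ℕ), a.Prime := by
        intro a ha
        simp only [Finset.mem_insert, Finset.mem_singleton] at ha
        rcases ha with rfl | rfl | rfl | rfl <;> norm_num
      have hm1 : m % 2 = 1 := Nat.odd_iff.1 hodd
      rcases hfin d (Finset.mem_range.2 (by omega)) m (Finset.mem_range.2 (by omega))
        ⟨hm1, hex, h9, h10, h8⟩ with h | h | h | ⟨h, h'⟩
      · exact Or.inl h
      · exact Or.inr (Or.inl (hprime d h))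
      · exact Or.inr (Or.inr (Or.inl h))
      · refine Or.inr (Or.inr (Or.inr (Or.inr ⟨hprime m ?_, h'⟩)))
        simp only [Finset.mem_insert, Finset.mem_singleton] at h ⊢
        exact Or.inr h
  have h4 := even_of_csum hS hn hn0 fun x => core hS hX (m := m) hm hcase hn hn0 x
  rw [hm] at h4
  exact (Nat.not_even_iff_odd.2 hodd) h4

end pred

end Pool.Agent.Y138.KC
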