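import Pool.Agent.Y138.KC.NoTri
import Pool.Agent.Y138.KC.Pred
import Pool.Agent.W517.K3.RelFin
import Pool.Agent.TH121.KT.Tors

/-!
# Relations between the conjugates of a Frobenius number of a K3 surface
-/

set_option autoImplicit false
set_option linter.unusedSectionVars false

namespace Pool.Agent.Y138.KC

open NumberField Module Pool.Agent.W517.K3 Pool.Agent.H485R3 Pool.Agent.TH121.KT

/-- The numerical condition: `n ≤ 3` and `(d, m)` is not one of nine exceptional pairs, or `m` is odd
and `(d, m)` is not one of four exceptional pairs. -/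
def Good (d m n : ℕ) : Prop :=
  d ≤ 10 ∧ ((n ≤ 3 ∧ (d, m) ∉ exceptionalPairs) ∨ (Odd m ∧ (d, m) ∉ exceptionalOddPairs))

section comb

variable {G X : Type*} [Group G] [Finite G] [MulAction G X] [Fintype X] [DecidableEq X]
  {c : X → X} {v : X → ℤ} (hS : Sgn G c v)
include hS

theorem balanced_list (hno : ∀ a b e : X, ¬ Tri G v a b e) (l : List X) (hl : l.length ≤ 3)
    (h : ∀ g : G, (l.map (fun x => v (g • x))).sum = 0) (x : X) :
    l.count x = l.count (c x) := by
  rcases l with _ | ⟨a, _ | ⟨b, _ | ⟨e, l⟩⟩⟩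
  · simp
  · exfalso
    obtain ⟨g, hg⟩ := exists_one hS a
    have := h g
    simp [hg] at this
  · have hab : b = c a := by
      refine hS.sep b (c a) fun g => ?_
      have := h g
      simp only [List.map_cons, List.map_nil, List.sum_cons, List.sum_nil] at this
      rw [← hS.cg, hS.odd]
      omega
    subst hab
    have h1 : ∀ y, (c y = x) ↔ (y = c x) := by
      intro y
      constructor
      · rintro rfl; exact (hS.cc y).symm
      · rintro rfl; exact hS.cc x
    have h2 : (c a = c x) ↔ (a = x) := ⟨fun h => c_inj hS h, fun h => by rw [h]⟩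
    simp only [List.count_cons, List.count_nil, beq_iff_eq, h1, h2]
    omega
  · rcases l with _ | ⟨f, l⟩
    · exfalso
      refine hno a b e fun g => ?_
      have := h g
      simp only [List.map_cons, List.map_nil, List.sum_cons, List.sum_nil] at this
      omega
    · exfalso
      simp only [List.length_cons] at hl
      omega

/-- Sums of at most three terms. -/
theorem balanced_small (hno : ∀ a b e : X, ¬ Tri G v a b e) (N : X → ℕ) (hN : ∑ x, N x ≤ 3)
    (h : ∀ g : G, ∑ x, (N x : ℤ) * v (g • x) = 0) (x : X) : N x = N (c x) := by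
  classical
  let s : Multiset X := ∑ x : X, N x • {x}
  have hcount : ∀ y, s.count y = N y := by
    intro y
    simp only [s]
    rw [Multiset.count_sum']
    simp only [Multiset.count_nsmul, Multiset.count_singleton]
    simp
  have hcard : s.card = ∑ x, N x := by
    simp [s, Multiset.card_sum]
  have hsum : ∀ g : G, (s.toList.map (fun x => v (g • x))).sum = 0 := by
    intro g
    rw [← h g, ← Multiset.sum_coe, ← Multiset.map_coe, Multiset.coe_toList,
      Finset.sum_multiset_map_count, Finset.sum_subset (Finset.subset_univ _)]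
    · refine Finset.sum_congr rfl fun y _ => ?_
      rw [hcount, nsmul_eq_mul]
    · intro y _ hy
      rw [Multiset.mem_toFinset, ← Multiset.count_eq_zero] at hy
      rw [hy, zero_smul]
  have h1 := balanced_list hS hno s.toList (by rw [Multiset.length_toList, hcard]; exact hN) hsum x
  rw [← Multiset.coe_count, ← Multiset.coe_count, Multiset.coe_toList, hcount, hcount] at h1
  exact h1

end comb

section emb

variable {p a : ℕ} [Fact p.Prime] {E : Type} [Field E] [NumberField E] [IsCMField E] {α : E}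

open Classical in
/-- **The relations between the conjugates of `α` are trivial.** -/
theorem balanced_emb (hα : IsK3Frobenius p a α) {d m n : ℕ} (hd : finrank ℚ E = 2 * d)
    (hm : localDegree p α = m) (hgood : Good d m n) (ι : Qb →+* PadicAlgCl p)
    (N : (E →+* Qb) → ℕ) (hN : ∑ σ, N σ ≤ n)
    (h : ∀ g : GQ, ∑ σ : E →+* Qb, (N σ : ℝ) * Real.log ‖ι (g (σ α))‖ = 0) (σ₀ : E →+* Qb) :
    N σ₀ = N (cj σ₀) := by
  obtain ⟨L, iF, iA, iFin, iGal, hlift'⟩ := Exact.exists_common' (fun _ : Unit => E)
  have hlift : ∀ {Ω' : Type} [Field Ω'] [Algebra ℚ Ω'] (e : L →ₐ[ℚ] Ω') (σ : E →ₐ[ℚ] Ω'),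
      ∃ σ' : E →ₐ[ℚ] L, e.comp σ' = σ := fun e σ => hlift' e () σ
  let j : L →ₐ[ℚ] Qb := IsAlgClosed.lift
  let e : L →ₐ[ℚ] PadicAlgCl p := RingHom.toRatAlgHom (ι.comp (j : L →+* Qb))
  have he : ∀ x, e x = ι (j x) := fun x => rfl
  obtain ⟨φ₀, -⟩ := hlift j (RingHom.toRatAlgHom σ₀)
  have hS := sgn_embeddings hα e φ₀
  obtain ⟨P, hP, hPn⟩ := exists_abs hα e φ₀
  -- embeddings
  let T : (E →ₐ[ℚ] L) → (E →+* Qb) := fun φ => (j : L →+* Qb).comp (φ : E →+* L)
  have hT : Function.Bijective T := by
    constructor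
    · intro φ φ' h
      ext x
      apply j.toRingHom.injective
      exact RingHom.congr_fun h x
    · intro σ
      obtain ⟨φ, hφ⟩ := hlift j (RingHom.toRatAlgHom σ)
      refine ⟨φ, ?_⟩
      ext x
      exact AlgHom.congr_fun hφ x
  let T' : (E →ₐ[ℚ] L) → (E →+* PadicAlgCl p) :=
    fun φ => (e : L →+* PadicAlgCl p).comp (φ : E →+* L)
  have hT' : Function.Bijective T' := by
    constructor
    · intro φ φ' h
      ext x
      apply e.toRingHom.injective
      exact RingHom.congr_fun h x
    · intro σ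
      obtain ⟨φ, hφ⟩ := hlift e (RingHom.toRatAlgHom σ)
      refine ⟨φ, ?_⟩
      ext x
      exact AlgHom.congr_fun hφ x
  have hcardX : Fintype.card (E →ₐ[ℚ] L) = 2 * d := by
    rw [Fintype.card_of_bijective hT', Embeddings.card, hd]
  have hcardS : (Lv (vv α e) 1).card = m := by
    rw [← hm]
    unfold localDegree
    have h1 : Nat.card {φ : E →ₐ[ℚ] L // vv α e φ = 1} = (Lv (vv α e) 1).card := by
      rw [Nat.card_eq_fintype_card, Fintype.card_subtype]
      rfl
    rw [← h1]
    refine Nat.card_congr (Equiv.subtypeEquiv (Equiv.ofBijective T' hT') fun φ => ?_)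
    rw [vv_eq_one_iff]
    rfl
  -- the relation
  have hrel : ∀ g : L ≃ₐ[ℚ] L, ∑ φ : E →ₐ[ℚ] L, (N (T φ) : ℤ) * vv α e (g • φ) = 0 := by
    intro g
    have hNF : NumberField L := by
      refine @NumberField.mk L _ ?_ ?_
      · exact charZero_of_injective_algebraMap (algebraMap ℚ L).injective
      · convert iFin
        exact Subsingleton.elim _ _
    obtain ⟨g', hg'⟩ := exists_act_eq (K := L) (j : L →+* Qb)
      ((j : L →+* Qb).comp (g : L →+* L))
    have hg'' : ∀ x, g' (j x) = j (g x) := fun x => RingHom.congr_fun hg' x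
    have h1 := h g'
    rw [← Equiv.sum_comp (Equiv.ofBijective T hT)] at h1
    have h2 : ∀ φ : E →ₐ[ℚ] L, (N (T φ) : ℝ) * Real.log ‖ι (g' (T φ α))‖ =
        ((N (T φ) : ℤ) * vv α e (g • φ) : ℤ) * Real.log P := by
      intro φ
      have h3 : ‖ι (g' (T φ α))‖ = P ^ (vv α e (g • φ)) := by
        rw [← hPn (g • φ), he, W517.K3.smul_apply]
        change ‖ι (g' (j (φ α)))‖ = _
        rw [hg'']
      rw [h3, Real.log_zpow]
      push_cast
      ring
    have h3 : ∑ φ : E →ₐ[ℚ] L, (((N (T φ) : ℤ) * vv α e (g • φ) : ℤ) : ℝ) * Real.log P = 0 := by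
      rw [← h1]
      exact Finset.sum_congr rfl fun φ _ => (h2 φ).symm
    rw [← Finset.sum_mul, ← Int.cast_sum] at h3
    have h4 : Real.log P ≠ 0 := (Real.log_pos hP).ne'
    exact_mod_cast (mul_eq_zero.1 h3).resolve_right h4
  have hTbar : ∀ φ, T (bar φ) = cj (T φ) := fun φ => rfl
  have key : ∀ φ, N (T φ) = N (T (bar φ)) := by
    obtain ⟨hd10, ⟨hn3, hex⟩ | ⟨hodd, hex⟩⟩ := hgood
    · refine balanced_small hS (fun a b e h => no_tri hS hcardX hcardS hd10 hex h)
        (fun φ => N (T φ)) ?_ hrel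
      rw [show ∑ x, N (T x) = ∑ σ, N σ from Equiv.sum_comp (Equiv.ofBijective T hT) N]
      omega
    · have h5 := zero_odd hS hcardX hcardS hodd hd10 hex
        (n := fun φ => (N (T φ) : ℤ) - N (T (bar φ))) ⟨?_, ?_⟩
      · intro φ
        have h7 : (N (T φ) : ℤ) - N (T (W517.K3.bar φ)) = 0 := congrFun h5 φ
        omega
      · intro φ
        change (N (T (W517.K3.bar φ)) : ℤ) - N (T (W517.K3.bar (W517.K3.bar φ))) =
          -((N (T φ) : ℤ) - N (T (W517.K3.bar φ)))
        rw [W517.K3.bar_bar]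
        ring
      · intro g
        have h6 : ∑ φ : E →ₐ[ℚ] L, (N (T (bar φ)) : ℤ) * vv α e (g • φ) =
            - ∑ φ : E →ₐ[ℚ] L, (N (T φ) : ℤ) * vv α e (g • φ) := by
          rw [← Finset.sum_neg_distrib]
          refine Fintype.sum_equiv ⟨W517.K3.bar, W517.K3.bar, W517.K3.bar_bar,
            W517.K3.bar_bar⟩ _ _ fun φ => ?_
          change _ = -((N (T (W517.K3.bar φ)) : ℤ) * vv α e (g • W517.K3.bar φ))
          rw [← hS.cg, hS.odd]
          ring
        simp only [sub_mul, Finset.sum_sub_distrib]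
        rw [h6, hrel g]
        ring
  obtain ⟨φ, rfl⟩ := hT.2 σ₀
  rw [key φ, hTbar]

end emb

end Pool.Agent.Y138.KC
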