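import Pool.Agent.Y138.KC.Defs
import Pool.Agent.Y138.KC.Link
import Pool.Agent.Y138.KC.Gen
import Pool.Agent.Y138.TU.Main

/-!
# The Tate conjecture for powers of K3 surfaces, times independent varieties
-/

set_option autoImplicit false
set_option linter.unusedSectionVars false

open CategoryTheory AlgebraicGeometry NumberField
open scoped TensorProduct

universe u v

namespace Pool.Agent.Y138.KC

open Pool.Agent.H914 Pool.Agent.H914.VarClass Pool.Agent.H914.VarClass.Obj
  Pool.Agent.H914.WeilCohomology Pool.Agent.H281R3.HT Pool.Agent.W552 Pool.Agent.W534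
  Pool.Agent.W458.RK Pool.Agent.W458.MF Pool.Agent.TH132.A Pool.Agent.W536.RR
  Pool.Agent.TH121.KT Pool.Agent.W517.K3 Pool.Agent.Y138.TU

section arith

variable {p : ℕ} [Fact p.Prime] {ι : Qb →+* PadicAlgCl p} {E : Type} [Field E] [NumberField E]
  [IsCMField E] {α : E}

/-- the complex conjugation of the algebraic numbers -/
theorem independent_bot : IsIndependentField E ⊥ := by
  let φ : Qb →+* ℂ := (IsAlgClosed.lift : Qb →ₐ[ℚ] ℂ).toRingHom
  let _ : Algebra Qb ℂ := φ.toAlgebra
  have hst : IsScalarTower ℚ Qb ℂ := IsScalarTower.of_algebraMap_eq fun x => by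
    change (x : ℂ) = φ (algebraMap ℚ Qb x)
    rw [eq_ratCast, map_ratCast]
  let ψ : ℂ →ₐ[ℚ] ℂ := RingHom.toRatAlgHom (starRingEnd ℂ)
  let h : Qb ≃ₐ[ℚ] Qb := ψ.restrictNormal' Qb
  have hh : ∀ x, φ (h x) = starRingEnd ℂ (φ x) := fun x =>
    AlgHom.restrictNormal_commutes ψ Qb x
  refine ⟨h, ?_, ?_⟩
  · intro x hx
    rw [IntermediateField.mem_bot] at hx
    obtain ⟨y, rfl⟩ := hx
    exact h.commutes y
  · intro σ x
    apply φ.injective
    rw [hh]
    exact (IsCMField.complexEmbedding_complexConj E (φ.comp σ) x).symm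

theorem k3_zero {a d m n : ℕ} (hα : IsK3Frobenius p a α)
    (hd : Module.finrank ℚ E = 2 * d) (hm : localDegree p α = m) (hgood : Good d m n)
    {T : IntermediateField ℚ Qb} (hT : IsIndependentField E T) : ZeroProp ι α T n := by
  refine ⟨hα.unitary, fun N hN hinv σ => ?_⟩
  obtain ⟨h, hhT, hhE⟩ := hT
  have hF : ∀ g : GQ, FF ι α N g = 0 := by
    intro g
    have h1 := hinv h hhT g
    have h2 : FF ι α N (h * g) = - FF ι α N g := by
      unfold FF
      rw [← Finset.sum_neg_distrib]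
      refine Finset.sum_congr rfl fun σ _ => ?_
      have h3 : ‖ι ((h * g) (σ α))‖ = ‖ι (g (σ α))‖⁻¹ := by
        have h4 : (h * g) (σ α) = cj (act g σ) α := hhE (act g σ) α
        rw [h4]
        exact cj_norm (ι := ι) hα.unitary (act g σ)
      rw [h3, Real.log_inv]
      ring
    linarith
  have h1 := balanced_emb hα hd hm hgood ι N hN hF σ
  unfold TH121.KT.odd
  omega

end arith

variable {k : Type u} [Field k] {𝒱 : VarClass k} {ops : CycleOps 𝒱}
  {W : WeilCohomology.{u, v} ops} {p : ℕ} [Fact p.Prime] {Φ : FrobSystem W p}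
  {ι : Qb →+* PadicAlgCl p} {X Z : 𝒱.Obj} {e : ℕ} {E : Type} [Field E] [NumberField E]
  [IsCMField E] {α : E}

theorem copies_of_power {n : ℕ} (h : IsPower W X n Z) :
    IsProductOfCopies W (fun _ : Fin 1 => X) (fun _ => n) Z := by
  induction h with
  | alg h => exact IsProductOfCopies.alg h
  | base =>
    have h1 := IsProductOfCopies.base (W := W) (X := fun _ : Fin 1 => X) 0
    convert h1 using 1
    funext i
    rw [Subsingleton.elim i 0, Pi.single_eq_same]
  | prod _ _ h1 h2 =>
    have h3 := IsProductOfCopies.prod h1 h2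
    exact h3

theorem times_of_good [IsAlgClosed W.K] {a d m n : ℕ} (hα : IsK3Frobenius p a α)
    (hd : Module.finrank ℚ E = 2 * d) (hm : localDegree p α = m) (hgood : Good d m n)
    (hX : HasWeilNumber Φ X e α) (hZ : IsPower W X n Z) {L : IntermediateField ℚ Qb}
    (hL : IsIndependentField E L) : TateTimesP Φ (InL p ι L) Z := by
  have hT : IsIndependentField E (tower (fun _ : Fin 1 => (⊤ : IntermediateField ℚ Qb)) L 0) := by
    have h1 : tower (fun _ : Fin 1 => (⊤ : IntermediateField ℚ Qb)) L 0 = L := by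
      unfold tower
      have h2 : IsEmpty {j : Fin 1 // j < 0} := ⟨fun j => absurd j.2 (Fin.not_lt_zero _)⟩
      rw [iSup_of_empty, sup_bot_eq]
    rw [h1]
    exact hL
  refine tateTimesP_products' (r := 1) (X := fun _ => X) (e := fun _ => e) (K := fun _ => E)
    (α := fun _ => α) (fun _ => hX) (copies_of_power hZ)
    (S := fun _ => (⊤ : IntermediateField ℚ Qb)) ?_ ?_
  · intro i h hh σ
    rw [hh _ IntermediateField.mem_top]
  · intro i
    rw [Subsingleton.elim i 0]
    exact k3_zero hα hd hm hgood hT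

theorem main_good [IsAlgClosed W.K] {a d m n : ℕ} (hα : IsK3Frobenius p a α)
    (hd : Module.finrank ℚ E = 2 * d) (hm : localDegree p α = m) (hgood : Good d m n)
    (hX : HasWeilNumber Φ X e α) (hZ : IsPower W X n Z) :
    (∀ c, SemisimpleTateIn Φ Z c) ∧
    ∀ (L : IntermediateField ℚ Qb), IsIndependentField E L →
      ∀ U : 𝒱.Obj, FrobeniusSlopes Φ ι L U → ∀ c,
      (TateIn Φ (Z.prod U) c ↔
        ∀ i ≤ c, (∃ x, Z.IsCyc i x ∧ ¬ HomEq W x 0) → TateIn Φ U (c - i)) ∧
      (SemisimpleTateIn Φ (Z.prod U) c ↔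
        ∀ i ≤ c, (∃ x, Z.IsCyc i x ∧ ¬ HomEq W x 0) → SemisimpleTateIn Φ U (c - i)) := by
  have hp := (Fact.out : p.Prime).one_lt
  refine ⟨fun c s hs x hx => ?_, ?_⟩
  · have hTT := times_of_good (ι := ι) hα hd hm hgood hX hZ (independent_bot (E := E))
    obtain ⟨⟨b, hb⟩, -⟩ := (mem_genTate Φ).1 hx
    rw [← cycSub_eq]
    exact gen_algP hp hTT (inL_one _) hs hb
  · rintro L hL U ⟨Q, hQ, hLQ, hroot⟩ c
    have hTT := times_of_good (ι := ι) hα hd hm hgood hX hZ hL
    have key : ∀ b, TateK Φ (Z.prod U) b c ↔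
        ∀ i ≤ c, (∃ x, Z.IsCyc i x ∧ ¬ HomEq W x 0) → TateK Φ U b (c - i) := fun b =>
      tateK_prod_iff hp hTT (inL_one L) (fun ν n hn h => inL_pow L ν n hn h)
        (fun ν hν => ⟨Q, ν, 1, one_pos, hQ, hLQ, hroot ν hν, (pow_one ν).symm⟩)
    refine ⟨?_, ?_⟩
    · rw [TU.tateIn_iff, key 1]
      simp only [TU.tateIn_iff]
    · simp only [semisimple_iff, key]
      constructor
      · intro h i hi hx a
        exact h a i hi hx
      · intro h a i hi hx
        exact h i hi hx a

end Pool.Agent.Y138.KC
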