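import Pool.Agent.Y138.KC.Tri
import Pool.Agent.W517.K3.Core4

/-!
# The invariant inner product, and relations with three terms
-/

set_option autoImplicit false
set_option linter.unusedSectionVars false

namespace Pool.Agent.Y138.KC

open Finset Pool.Agent.W517.K3

section ip

variable {G X : Type*} [Group G] [Fintype G] [MulAction G X] {c : X → X} {v : X → ℤ}

/-- the invariant inner product -/
def ip (G : Type*) {X : Type*} [Group G] [Fintype G] [MulAction G X] (v : X → ℤ) (x y : X) : ℤ :=
  ∑ g : G, v (g • x) * v (g • y)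

theorem ip_smul (k : G) (x y : X) : ip G v (k • x) (k • y) = ip G v x y := by
  unfold ip
  refine Fintype.sum_equiv (Equiv.mulRight k) _ _ fun g => ?_
  simp only [Equiv.coe_mulRight, mul_smul]

theorem ip_comm (x y : X) : ip G v x y = ip G v y x := by
  unfold ip
  exact Finset.sum_congr rfl fun g _ => mul_comm _ _

variable (hS : Sgn G c v)
include hS

theorem ip_c_left (x y : X) : ip G v (c x) y = - ip G v x y := by
  unfold ip
  rw [← Finset.sum_neg_distrib]
  refine Finset.sum_congr rfl fun g _ => ?_
  rw [← hS.cg, hS.odd]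
  ring

theorem ip_c_right (x y : X) : ip G v x (c y) = - ip G v x y := by
  rw [ip_comm, ip_c_left hS, ip_comm]

theorem ip_self (x y : X) : ip G v x x = ip G v y y := by
  obtain ⟨g, rfl⟩ := hS.trans x y
  rw [ip_smul]

theorem ip_self_pos (x : X) : 0 < ip G v x x := by
  obtain ⟨g, hg⟩ := exists_one hS x
  unfold ip
  refine Finset.sum_pos' (fun h _ => mul_self_nonneg _) ⟨g, Finset.mem_univ g, ?_⟩
  rw [hg]
  norm_num

theorem Tri.ip_add {a b e : X} (h : Tri G v a b e) (y : X) :
    ip G v a y + ip G v b y + ip G v e y = 0 := by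
  unfold ip
  rw [← Finset.sum_add_distrib, ← Finset.sum_add_distrib]
  refine Finset.sum_eq_zero fun g _ => ?_
  rw [← add_mul, ← add_mul, h g, zero_mul]

theorem Tri.ip_eq {a b e : X} (h : Tri G v a b e) (x : X) : 2 * ip G v a b = - ip G v x x := by
  have h1 := h.ip_add hS a
  have h2 := h.ip_add hS b
  have h3 := h.ip_add hS e
  have e1 := ip_self hS a x
  have e2 := ip_self hS b x
  have e3 := ip_self hS e x
  have c1 := ip_comm (G := G) (v := v) b a
  have c2 := ip_comm (G := G) (v := v) e a
  have c3 := ip_comm (G := G) (v := v) e b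
  omega

end ip

section count

variable {G X : Type*} [Group G] [Finite G] [MulAction G X] [Fintype X] [DecidableEq X]
  {c : X → X} {v : X → ℤ} (hS : Sgn G c v)
include hS

/-- If all pairs of elements of `T` are edges, then the differences are different. -/
theorem rho_le_one (hK : ∀ a t, v a = 1 → v t = 1 → a ≠ t → ∃ e, Tri G v a (c t) e) (z : X) :
    (rho G c v z).card ≤ 1 := by
  have hG := Fintype.ofFinite G
  rw [Finset.card_le_one]
  intro q hq q' hq'
  rw [mem_rho] at hq hq'
  obtain ⟨h1, h2, h3⟩ := hq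
  obtain ⟨h1', h2', h3'⟩ := hq'
  by_contra hne
  have hne1 : q.1 ≠ q'.1 := by
    intro h
    rw [← h] at h3'
    have := h3.swap.unique hS h3'.swap
    exact hne (Prod.ext h (c_inj hS this))
  have e1 := h3.ip_add hS q.1
  have e2 := h3'.ip_add hS q.1
  rw [ip_c_left hS] at e1 e2
  have e3 := h3.ip_eq hS q.1
  rw [ip_c_right hS, ip_comm] at e3
  obtain ⟨w, hw⟩ := hK q'.1 q.1 h1' h1 hne1.symm
  have e4 := hw.ip_eq hS q.1
  rw [ip_c_right hS] at e4
  have hpos := ip_self_pos hS q.1
  have e5 : ip G v q'.2 q.1 = 0 := by omega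
  by_cases h : q'.2 = q.1
  · rw [h] at e5
    omega
  · obtain ⟨w', hw'⟩ := hK q'.2 q.1 h2' h1 h
    have e6 := hw'.ip_eq hS q.1
    rw [ip_c_right hS] at e6
    omega

omit [Finite G] in
/-- The basic counts. -/
theorem counts {d m : ℕ} (hX : Fintype.card X = 2 * d) (hm : (Lv v 1).card = m)
    {a b e : X} (h : Tri G v a b e) : ∃ r : ℕ, 1 ≤ r ∧ r + 1 ≤ m ∧ 3 ∣ d * r ∧ 2 ∣ m * r ∧
      (∀ x, (Nb G v x).card = 2 * r) ∧ (∀ x, v x = 1 → (Out G c v x).card = r) ∧
      (Lv v 0).card = 2 * d - 2 * m ∧ m ≤ d ∧
      m * r = ∑ z ∈ Lv v 0, (rho G c v z).card ∧ (∀ z ∈ Lv v 0, (rho G c v z).card ≤ r) := by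
  obtain ⟨t, ht⟩ := hS.ex
  have hN : ∀ x, (Nb G v x).card = 2 * nbi G v t (-1) := fun x => by
    rw [card_Nb hS x t, card_Nb_one hS ht]
  have hr : ∀ x, v x = 1 → nbi G v x (-1) = nbi G v t (-1) := by
    intro x hx
    have h1 := card_Nb_one hS hx
    rw [hN x] at h1
    omega
  have hcard := card_add hS
  have hLv1 : (univ.filter (fun x => v x = 1)).card = m := hm
  have hLv0 : (univ.filter (fun x => v x = 0)).card = (Lv v 0).card := rfl
  have hpos : 0 < (Nb G v a).card := Finset.card_pos.2 ⟨b, mem_Nb.2 ⟨e, h⟩⟩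
  have hEd := card_Ed hS hr
  rw [hm] at hEd
  refine ⟨nbi G v t (-1), ?_, ?_, ?_, ?_, hN, ?_, ?_, ?_, ?_, ?_⟩
  · rw [hN a] at hpos
    omega
  · have h1 := Finset.card_le_card (Out_subset hS t ht)
    rw [card_Out hS, Finset.card_erase_of_mem (mem_Lv.2 ht), hm] at h1
    have h2 : 0 < m := by
      rw [← hm]
      exact Finset.card_pos.2 ⟨t, mem_Lv.2 ht⟩
    omega
  · have h1 := three_dvd hS hN
    rw [hX] at h1
    have h2 : 3 ∣ 4 * (d * nbi G v t (-1)) := by
      refine h1.trans (dvd_of_eq ?_)
      ring
    exact (Nat.Coprime.dvd_mul_left (by norm_num)).1 h2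
  · rw [← hEd]
    exact even_Ed hS
  · intro x hx
    rw [card_Out hS, hr x hx]
  · omega
  · omega
  · rw [← hEd]
    exact card_Ed_eq_sum hS
  · intro z hz
    rw [card_rho hS (mem_Lv.1 hz)]
    have h1 := card_Nb_zero hS (mem_Lv.1 hz)
    rw [hN z] at h1
    omega

omit [Finite G] in
/-- the relations with three terms give an odd function -/
theorem exists_rel {a b e : X} (h : Tri G v a b e) :
    ∃ n : X → ℤ, Rel G c v n ∧ n ≠ fun _ => 0 := by
  have hsum : ∀ (y : X) (f : X → ℤ), ∑ x, (if x = y then (1 : ℤ) else 0) * f x = f y := by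
    intro y f
    simp
  refine ⟨fun x => ((if x = a then 1 else 0) + (if x = b then 1 else 0) +
    (if x = e then 1 else 0)) - ((if x = c a then 1 else 0) + (if x = c b then 1 else 0) +
      (if x = c e then 1 else 0)), ⟨?_, ?_⟩, ?_⟩
  · intro x
    have h1 : ∀ y, (c x = y) ↔ (x = c y) := by
      intro y
      constructor
      · rintro rfl; exact (hS.cc x).symm
      · rintro rfl; exact hS.cc y
    simp only [h1, hS.cc]
    ring
  · intro g
    have h1 := h g
    simp only [sub_mul, add_mul, Finset.sum_sub_distrib, Finset.sum_add_distrib, hsum]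
    rw [← hS.cg, ← hS.cg, ← hS.cg, hS.odd, hS.odd, hS.odd]
    omega
  · intro h0
    have h1 := congrFun h0 a
    have hab := h.ne hS
    have hae := h.swap.ne hS
    have hab' := h.ne_c hS
    have hae' := h.swap.ne_c hS
    have haa := (c_ne hS a).symm
    simp only [if_true, if_neg hab, if_neg hae, if_neg hab', if_neg hae', if_neg haa] at h1
    omega

open Classical in
/-- If the class sums vanish then the number of points with value one is even. -/
theorem even_of_csum {n₀ : X → ℤ} (h₀ : Rel G c v n₀) (hn₀ : n₀ ≠ fun _ => 0)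
    (hcs : ∀ x, csum G c v x = 0) : Even (Lv v 1).card := by
  -- the number of the elements of the class of `x` with value one
  let r : Setoid X := ⟨fun x y => y ∈ cls G c v x, fun x _ _ => rfl,
    fun h n hn => (h n hn).symm, fun h h' n hn => (h n hn).trans (h' n hn)⟩
  have hsum : ((Lv v 1).card : ZMod 2) = ∑ q : Quotient r,
      (((Lv v 1).filter (fun x => (Quotient.mk r x) = q)).card : ZMod 2) := by
    rw [← Nat.cast_sum, Finset.card_eq_sum_card_fiberwise (f := fun x => Quotient.mk r x)
      (t := Finset.univ) (fun x _ => Finset.mem_coe.2 (Finset.mem_univ _))]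
  let cq : Quotient r → Quotient r := Quotient.map c (by
    intro x y hxy n hn
    rw [hn.1, hn.1, hxy n hn])
  have hcq : ∀ q, cq (cq q) = q := by
    intro q
    induction q using Quotient.inductionOn with
    | h x =>
      change Quotient.mk r (c (c x)) = Quotient.mk r x
      rw [hS.cc]
  have hnum : ∀ q : Quotient r, ((Lv v 1).filter (fun x => (Quotient.mk r x) = q)).card =
      ((Lv v 1).filter (fun x => (Quotient.mk r x) = cq q)).card := by
    intro q
    induction q using Quotient.inductionOn with
    | h y =>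
    have h1 : ((Lv v 1).filter (fun x => (Quotient.mk r x) = Quotient.mk r y)).card =
        ((Lv v (-1)).filter (fun x => (Quotient.mk r x) = Quotient.mk r y)).card := by
      have h2 := hcs y
      unfold csum at h2
      have h3 : ∀ x, v x = (if v x = 1 then (1 : ℤ) else 0) - (if v x = -1 then 1 else 0) := by
        intro x
        rcases hS.val x with h | h | h <;> rw [h] <;> norm_num
      rw [Finset.sum_congr rfl fun x _ => h3 x, Finset.sum_sub_distrib, Finset.sum_ite,
        Finset.sum_const_zero, Finset.sum_ite, Finset.sum_const_zero] at h2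
      simp only [Finset.sum_const, nsmul_eq_mul, mul_one, add_zero] at h2
      rw [sub_eq_zero] at h2
      have h4 : ∀ i : ℤ, ((Lv v i).filter (fun x => (Quotient.mk r x) = Quotient.mk r y)) =
          ((univ.filter (fun x => x ∈ cls G c v y)).filter (fun x => v x = i)) := by
        intro i
        ext x
        simp only [mem_filter, mem_Lv, mem_univ, true_and]
        rw [and_comm]
        refine and_congr_left fun _ => ?_
        rw [eq_comm, Quotient.eq]
        rfl
      rw [h4, h4]
      exact_mod_cast h2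
    rw [h1]
    refine Finset.card_bij (fun x _ => c x) ?_ ?_ ?_
    · intro x hx
      rw [mem_filter, mem_Lv] at hx ⊢
      refine ⟨by rw [hS.odd, hx.1]; norm_num, ?_⟩
      rw [← hx.2]
      rfl
    · intro x _ x' _ h
      exact c_inj hS h
    · intro x hx
      rw [mem_filter, mem_Lv] at hx
      refine ⟨c x, ?_, hS.cc x⟩
      rw [mem_filter, mem_Lv]
      refine ⟨by rw [hS.odd, hx.1], ?_⟩
      rw [← hcq (Quotient.mk r y), ← hx.2]
      rfl
  have hne : ∀ q, cq q ≠ q := by
    intro q
    induction q using Quotient.inductionOn with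
    | h x =>
      intro h
      have h1 : x ∈ cls G c v (c x) := Quotient.exact h
      apply hn₀
      refine zero_of_orbit hS x fun g => ?_
      have h2 := h1 _ (h₀.translate hS g)
      rw [← hS.cg, h₀.1] at h2
      omega
  have hzero : ∑ q : Quotient r,
      (((Lv v 1).filter (fun x => (Quotient.mk r x) = q)).card : ZMod 2) = 0 := by
    refine Finset.sum_involution (fun q _ => cq q) ?_ ?_ ?_ ?_
    · intro q _
      rw [← hnum q]
      exact CharTwo.add_self_eq_zero _
    · intro q _ _
      exact hne q
    · intro q _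
      exact Finset.mem_univ _
    · intro q _
      exact hcq q
  rw [hzero] at hsum
  exact even_iff_two_dvd.2 ((ZMod.natCast_eq_zero_iff _ _).1 hsum)

end count

end Pool.Agent.Y138.KC
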