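import Pool.Agent.Y138.KC.Ip
import Pool.Agent.W517.K3.Circ

/-!
# Relations modulo a prime number, fixed by a group of prime power order
-/

set_option autoImplicit false
set_option linter.unusedSectionVars false

namespace Pool.Agent.Y138.KC

open Finset Pool.Agent.W517.K3

section modp

variable {G X : Type*} [Group G] [MulAction G X] [Fintype X] {c : X → X} {v : X → ℤ}
  (hS : Sgn G c v)
include hS

/-- fixed relations modulo `ℓ` -/
theorem exists_fixed {ℓ : ℕ} [hℓ : Fact ℓ.Prime] (Q : Subgroup G) [Finite Q] (hQ : IsPGroup ℓ Q)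
    {n : X → ℤ} (hn : Rel G c v n) {x₀ : X} (hx₀ : (n x₀ : ZMod ℓ) ≠ 0) :
    ∃ n' : X → ℤ, Rel G c v n' ∧ (∃ x, (n' x : ZMod ℓ) ≠ 0) ∧
      ∀ g ∈ Q, ∀ x, (n' (g • x) : ZMod ℓ) = n' x := by
  classical
  let N : AddSubgroup (X → ZMod ℓ) :=
    { carrier := {f | ∃ n : X → ℤ, Rel G c v n ∧ ∀ x, f x = (n x : ZMod ℓ)}
      add_mem' := by
        rintro f f' ⟨n, hn, h⟩ ⟨n', hn', h'⟩
        exact ⟨_, hn.add hn', fun x => by simp [h, h']⟩
      zero_mem' := ⟨_, Rel.zero, fun x => by simp⟩
      neg_mem' := by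
        rintro f ⟨n, hn, h⟩
        exact ⟨_, hn.neg, fun x => by simp [h]⟩ }
  let act : MulAction Q N :=
    { smul := fun g f => ⟨fun x => f.1 (g⁻¹ • x), by
        obtain ⟨n, hn, h⟩ := f.2
        refine ⟨fun x => n (((g⁻¹ : Q) : G) • x), hn.translate hS _, fun x => ?_⟩
        exact h _⟩
      one_smul := by
        intro f
        apply Subtype.ext
        funext x
        change f.1 ((1 : Q)⁻¹ • x) = f.1 x
        rw [inv_one, one_smul]
      mul_smul := by
        intro g g' f
        apply Subtype.ext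
        funext x
        change f.1 ((g * g')⁻¹ • x) = f.1 (g'⁻¹ • (g⁻¹ • x))
        rw [mul_inv_rev, mul_smul] }
  have hfin : Finite N := inferInstance
  let f₀ : N := ⟨fun x => (n x : ZMod ℓ), n, hn, fun _ => rfl⟩
  have hf₀ : f₀ ≠ 0 := fun h => hx₀ (congrFun (congrArg Subtype.val h) x₀)
  have hord : addOrderOf f₀ = ℓ := by
    apply addOrderOf_eq_prime
    · apply Subtype.ext
      funext y
      change (ℓ • f₀.1) y = 0
      rw [Pi.smul_apply, nsmul_eq_mul, CharP.cast_eq_zero, zero_mul]
    · exact hf₀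
  have hdvd : ℓ ∣ Nat.card N := by
    have := addOrderOf_dvd_natCard f₀
    rwa [hord] at this
  have h0 : (0 : N) ∈ MulAction.fixedPoints Q N := by
    intro g
    apply Subtype.ext
    funext y
    rfl
  obtain ⟨f, hf, hne⟩ := hQ.exists_fixed_point_of_prime_dvd_card_of_fixed_point N hdvd h0
  have hfix : ∀ (g : Q) y, f.1 (g⁻¹ • y) = f.1 y := by
    intro g y
    exact congrFun (congrArg Subtype.val (hf g)) y
  obtain ⟨n', hn', h'⟩ := f.2
  refine ⟨n', hn', ?_, ?_⟩
  · by_contra hcon
    push Not at hcon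
    apply hne
    apply Subtype.ext
    funext y
    rw [h' y, hcon y]
    rfl
  · intro g hg x
    rw [← h', ← h']
    have h1 := hfix ⟨g, hg⟩ (g • x)
    rw [← h1]
    change f.1 ((g⁻¹ : G) • g • x) = f.1 x
    rw [inv_smul_smul]

omit hS in
/-- infinite descent -/
theorem zero_of_dvd {ℓ : ℕ} (hℓ : 1 < ℓ)
    (h : ∀ n : X → ℤ, Rel G c v n → ∀ x, (ℓ : ℤ) ∣ n x) {n : X → ℤ} (hn : Rel G c v n) :
    n = fun _ => 0 := by
  have hdesc : ∀ (N : ℕ) (n : X → ℤ), Rel G c v n → ∀ x, (n x).natAbs ≤ N → n x = 0 := by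
    intro N
    induction N with
    | zero =>
      intro n _ x h
      omega
    | succ N ih =>
      intro n hn x hN
      by_contra hne
      choose w hw using h n hn
      have hℓ0 : (ℓ : ℤ) ≠ 0 := by positivity
      have hrel : Rel G c v w := by
        refine ⟨fun y => ?_, fun g => ?_⟩
        · have h1 := hn.1 y
          rw [hw y, hw (c y), ← mul_neg] at h1
          exact mul_left_cancel₀ hℓ0 h1
        · have h1 := hn.2 g
          have h2 : ∀ y, n y * v (g • y) = ℓ * (w y * v (g • y)) := by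
            intro y
            rw [hw y]
            ring
          simp only [h2] at h1
          rw [← Finset.mul_sum] at h1
          exact (mul_eq_zero.1 h1).resolve_left hℓ0
      have h3 := ih w hrel x (by
        rw [hw x, Int.natAbs_mul, Int.natAbs_natCast] at hN
        have h4 : w x ≠ 0 := by
          intro h4
          rw [hw x, h4, mul_zero] at hne
          exact hne rfl
        have h5 : 0 < (w x).natAbs := Int.natAbs_pos.2 h4
        nlinarith)
      apply hne
      rw [hw x, h3, mul_zero]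
  funext x
  exact hdesc _ n hn x le_rfl

end modp

section place

variable {G X : Type*} [Group G] [Finite G] [MulAction G X] [Fintype X] [DecidableEq X]
  {c : X → X} {v : X → ℤ} (hS : Sgn G c v)
include hS

/-- If the number of points with value one is a power of the prime `ℓ`, then a subgroup of prime
power order of the stabiliser of `v` is transitive on them. -/
theorem exists_pgroup {ℓ k : ℕ} [hℓ : Fact ℓ.Prime] (hm : (Lv v 1).card = ℓ ^ k) :
    ∃ Q : Subgroup G, IsPGroup ℓ Q ∧ (∀ g ∈ Q, ∀ z, v (g • z) = v z) ∧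
      ∀ x y, v x = 1 → v y = 1 → ∃ g ∈ Q, g • x = y := by
  classical
  let D : Subgroup G :=
    { carrier := {g | ∀ z, v (g • z) = v z}
      mul_mem' := by
        intro g g' h h' z
        rw [mul_smul, h, h']
      one_mem' := fun z => by rw [one_smul]
      inv_mem' := by
        intro g h z
        have := h (g⁻¹ • z)
        rw [smul_inv_smul] at this
        exact this.symm }
  obtain ⟨Q⟩ : Nonempty (Sylow ℓ D) := inferInstance
  have key : ∀ x, v x = 1 → ∀ y, v y = 1 → ∃ g : Q, g • x = y := by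
    intro x hx y hy
    have h0 : MulAction.orbit D x = {z | v z = 1} := by
      ext z
      constructor
      · rintro ⟨g, rfl⟩
        change v ((g : G) • x) = 1
        rw [g.2 x, hx]
      · intro hz
        obtain ⟨δ, hδ, hδv⟩ := hS.place x z hx hz
        exact ⟨⟨δ, hδv⟩, hδ⟩
    have hcard : Nat.card {z | v z = 1} = ℓ ^ k := by
      rw [← hm, Nat.card_coe_set_eq, Set.ncard_eq_toFinset_card']
      congr 1
      ext z
      simp [Lv]
    have h1 := dvd_card_orbit (H := D) ℓ k Q x (by rw [h0, hcard])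
    have h2 : MulAction.orbit Q x ⊆ {z | v z = 1} := by
      rw [← h0]
      rintro z ⟨g, rfl⟩
      exact ⟨(g : D), rfl⟩
    have hfin : Set.Finite {z | v z = 1} := Set.toFinite _
    have h3 : MulAction.orbit Q x = {z | v z = 1} := by
      refine Set.eq_of_subset_of_ncard_le h2 ?_ hfin
      have : Nonempty (MulAction.orbit Q x) := ⟨⟨x, MulAction.mem_orbit_self x⟩⟩
      rw [← Nat.card_coe_set_eq, hcard, ← Nat.card_coe_set_eq]
      exact Nat.le_of_dvd Nat.card_pos h1
    have h4 : y ∈ MulAction.orbit Q x := by rw [h3]; exact hy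
    exact h4
  refine ⟨(Q : Subgroup D).map D.subtype, Q.isPGroup'.map D.subtype, ?_, ?_⟩
  · rintro _ ⟨g, -, rfl⟩ z
    exact g.2 z
  · intro x y hx hy
    obtain ⟨g, hg⟩ := key x hx y hy
    exact ⟨_, ⟨(g : D), g.2, rfl⟩, hg⟩

end place

end Pool.Agent.Y138.KC
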