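import Pool.Agent.Y138.KC.ModP

/-!
# Nine pairs of points and nine points with value one
-/

set_option autoImplicit false
set_option linter.unusedSectionVars false

namespace Pool.Agent.Y138.KC

open Finset Pool.Agent.W517.K3

/-- Sets of signs on nine points with all inner products divisible by three do not separate the
points. -/
theorem signs_nine {X I : Type*} [DecidableEq X] (T : Finset X) (hT : T.card = 9)
    (u : I → X → ℤ) (hu : ∀ i, ∀ x ∈ T, u i x = 1 ∨ u i x = -1)
    (h1 : ∀ i, (3 : ℤ) ∣ ∑ x ∈ T, u i x) (h2 : ∀ i j, (3 : ℤ) ∣ ∑ x ∈ T, u i x * u j x)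
    (hsep : ∀ x ∈ T, ∀ y ∈ T, x ≠ y → ∃ i, u i x ≠ u i y) : False := by
  have hB : ∀ i, ∃ (ε : ℤ) (B : Finset X), (ε = 1 ∨ ε = -1) ∧ B ⊆ T ∧
      (∀ x ∈ T, u i x = ε * (1 - 2 * (if x ∈ B then 1 else 0))) ∧ B.card ≤ 4 := by
    intro i
    by_cases h : (T.filter (fun x => u i x = -1)).card ≤ 4
    · refine ⟨1, T.filter (fun x => u i x = -1), Or.inl rfl, Finset.filter_subset _ _, ?_, h⟩
      intro x hx
      rcases hu i x hx with h' | h'
      · rw [if_neg (by rw [Finset.mem_filter]; rintro ⟨-, h3⟩; omega), h']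
        norm_num
      · rw [if_pos (by rw [Finset.mem_filter]; exact ⟨hx, h'⟩), h']
        norm_num
    · refine ⟨-1, T.filter (fun x => ¬ u i x = -1), Or.inr rfl, Finset.filter_subset _ _, ?_, ?_⟩
      · intro x hx
        rcases hu i x hx with h' | h'
        · rw [if_pos (by rw [Finset.mem_filter]; exact ⟨hx, by omega⟩), h']
          norm_num
        · rw [if_neg (by rw [Finset.mem_filter]; rintro ⟨-, h3⟩; exact h3 h'), h']
          norm_num
      · have := Finset.card_filter_add_card_filter_not (s := T) (fun x => u i x = -1)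
        omega
  choose ε B hε hBT hval hcard using hB
  have hsum : ∀ A ⊆ T, ∑ x ∈ T, (if x ∈ A then (1 : ℤ) else 0) = A.card := by
    intro A hA
    rw [← Finset.sum_filter, Finset.sum_const, nsmul_eq_mul, mul_one]
    congr 2
    ext x
    rw [Finset.mem_filter]
    exact ⟨fun h => h.2, fun h => ⟨hA h, h⟩⟩
  have hdvd : ∀ i (z : ℤ), (3 : ℤ) ∣ ε i * z → (3 : ℤ) ∣ z := by
    intro i z h
    rcases hε i with h' | h' <;> rw [h'] at h <;> omega
  have hB3 : ∀ i, (B i).card = 0 ∨ (B i).card = 3 := by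
    intro i
    have h3 := h1 i
    rw [Finset.sum_congr rfl (hval i), ← Finset.mul_sum] at h3
    have h4 := hdvd i _ h3
    rw [Finset.sum_sub_distrib, ← Finset.mul_sum, hsum _ (hBT i), Finset.sum_const, hT] at h4
    have := hcard i
    simp only [nsmul_eq_mul, mul_one] at h4
    omega
  have hBB : ∀ i j, 3 ∣ (B i ∩ B j).card := by
    intro i j
    have h3 := h2 i j
    have e1 : ∀ x ∈ T, u i x * u j x = ε i * (ε j * (1 - 2 * (if x ∈ B i then 1 else 0) -
        2 * (if x ∈ B j then 1 else 0) + 4 * (if x ∈ B i ∩ B j then 1 else 0))) := by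
      intro x hx
      rw [hval i x hx, hval j x hx]
      by_cases h5 : x ∈ B i <;> by_cases h6 : x ∈ B j <;> simp [h5, h6] <;> ring
    rw [Finset.sum_congr rfl e1, ← Finset.mul_sum, ← Finset.mul_sum] at h3
    have h4 := hdvd j _ (hdvd i _ h3)
    rw [Finset.sum_add_distrib, Finset.sum_sub_distrib, Finset.sum_sub_distrib, ← Finset.mul_sum,
      ← Finset.mul_sum, ← Finset.mul_sum, hsum _ (hBT i), hsum _ (hBT j),
      hsum _ (Finset.inter_subset_left.trans (hBT i)), Finset.sum_const, hT] at h4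
    simp only [nsmul_eq_mul, mul_one] at h4
    have h5 := hB3 i
    have h6 := hB3 j
    omega
  have hsep' : ∀ x ∈ T, ∀ y ∈ T, x ≠ y → ∃ i, ¬ (x ∈ B i ↔ y ∈ B i) := by
    intro x hx y hy hxy
    obtain ⟨i, hi⟩ := hsep x hx y hy hxy
    refine ⟨i, fun h => hi ?_⟩
    rw [hval i x hx, hval i y hy]
    by_cases h5 : x ∈ B i
    · rw [if_pos h5, if_pos (h.1 h5)]
    · rw [if_neg h5, if_neg (fun h6 => h5 (h.2 h6))]
  obtain ⟨x, hx, y, hy, hxy⟩ := Finset.one_lt_card.1 (by rw [hT]; norm_num : 1 < T.card)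
  obtain ⟨i, hi⟩ := hsep' x hx y hy hxy
  have hBi : (B i).card = 3 := by
    rcases hB3 i with h | h
    · exfalso
      apply hi
      rw [Finset.card_eq_zero.1 h]
      simp
    · exact h
  obtain ⟨x', hx', y', hy', hxy'⟩ := Finset.one_lt_card.1 (by rw [hBi]; norm_num : 1 < (B i).card)
  obtain ⟨j, hj⟩ := hsep' x' (hBT i hx') y' (hBT i hy') hxy'
  have h3 := hBB i j
  have h4 : (B i ∩ B j).card ≠ 0 := by
    intro h
    rw [Finset.card_eq_zero] at h
    apply hj
    have h5 : x' ∉ B j := fun h6 => by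
      have : x' ∈ B i ∩ B j := Finset.mem_inter.2 ⟨hx', h6⟩
      rw [h] at this
      exact absurd this (Finset.notMem_empty _)
    have h6 : y' ∉ B j := fun h6 => by
      have : y' ∈ B i ∩ B j := Finset.mem_inter.2 ⟨hy', h6⟩
      rw [h] at this
      exact absurd this (Finset.notMem_empty _)
    exact ⟨fun h7 => absurd h7 h5, fun h7 => absurd h7 h6⟩
  have h5 : (B i ∩ B j).card < 3 := by
    by_contra hcon
    have h6 : B i ∩ B j = B i := Finset.eq_of_subset_of_card_le Finset.inter_subset_left (by omega)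
    apply hj
    have h7 : x' ∈ B j := (Finset.mem_inter.1 (h6 ▸ hx')).2
    have h8 : y' ∈ B j := (Finset.mem_inter.1 (h6 ▸ hy')).2
    exact ⟨fun _ => h8, fun _ => h7⟩
  omega

section nine

variable {G X : Type*} [Group G] [Finite G] [MulAction G X] [Fintype X] [DecidableEq X]
  {c : X → X} {v : X → ℤ} (hS : Sgn G c v)
include hS

/-- **Nine pairs of points and nine points with value one: there are no relations.** -/
theorem zero_nine (hX : Fintype.card X = 2 * 9) (hm : (Lv v 1).card = 9) {n : X → ℤ}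
    (hn : Rel G c v n) : n = fun _ => 0 := by
  have h3 : Fact (Nat.Prime 3) := ⟨Nat.prime_three⟩
  have hcard := card_add hS
  have hLv1 : (univ.filter (fun x => v x = 1)).card = 9 := hm
  have h0 : (univ.filter (fun x => v x = 0)).card = 0 := by omega
  have hne : ∀ x, v x ≠ 0 := by
    intro x hx
    rw [Finset.card_eq_zero, Finset.filter_eq_empty_iff] at h0
    exact h0 (Finset.mem_univ x) hx
  refine zero_of_dvd (ℓ := 3) (by norm_num) ?_ hn
  intro n hn x₀
  by_contra hx₀
  obtain ⟨Q, hQ, hQv, hQt⟩ := exists_pgroup hS (ℓ := 3) (k := 2) (by rw [hm]; norm_num)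
  obtain ⟨n', hn', ⟨y₀, hy₀⟩, hfix⟩ := exists_fixed hS Q hQ hn (x₀ := x₀) (by
    intro h
    exact hx₀ ((ZMod.intCast_zmod_eq_zero_iff_dvd (n x₀) 3).1 h))
  obtain ⟨t, ht⟩ := hS.ex
  -- the relation is a multiple of `v` modulo three
  have hmul : ∀ x, (n' x : ZMod 3) = (n' t : ZMod 3) * (v x : ZMod 3) := by
    intro x
    rcases hS.val x with h | h | h
    · obtain ⟨g, hg, rfl⟩ := hQt t x ht h
      rw [hfix g hg, h]
      simp
    · exact absurd h (hne x)
    · have h4 : v (c x) = 1 := by rw [hS.odd, h]; norm_num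
      obtain ⟨g, hg, h5⟩ := hQt t (c x) ht h4
      have h6 := hn'.1 x
      have h7 := hfix g hg t
      rw [h5, h6] at h7
      rw [h]
      push_cast at h7 ⊢
      rw [← h7]
      ring
  have hnt : (n' t : ZMod 3) ≠ 0 := by
    intro h
    apply hy₀
    rw [hmul y₀, h, zero_mul]
  have hdiv : ∀ g : G, (3 : ℤ) ∣ ∑ x, v x * v (g • x) := by
    intro g
    have h4 := hn'.2 g
    have h5 : ((∑ x, n' x * v (g • x) : ℤ) : ZMod 3) =
        (n' t : ZMod 3) * ((∑ x, v x * v (g • x) : ℤ) : ZMod 3) := by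
      push_cast
      rw [Finset.mul_sum]
      refine Finset.sum_congr rfl fun x _ => ?_
      rw [hmul x]
      ring
    rw [h4, Int.cast_zero] at h5
    have h6 := (mul_eq_zero.1 h5.symm).resolve_left hnt
    exact (ZMod.intCast_zmod_eq_zero_iff_dvd _ 3).1 h6
  have hT : ∀ g k : G, ∑ x, v (g • x) * v (k • x) = 2 * ∑ x ∈ Lv v 1, v (g • x) * v (k • x) := by
    intro g k
    refine sum_even hS hne (f := fun x => v (g • x) * v (k • x)) fun x => ?_
    rw [← hS.cg, ← hS.cg, hS.odd, hS.odd]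
    ring
  have hgk : ∀ g k : G, (3 : ℤ) ∣ ∑ x ∈ Lv v 1, v (g • x) * v (k • x) := by
    intro g k
    have h4 := hdiv (k * g⁻¹)
    have h5 : ∑ x, v x * v ((k * g⁻¹) • x) = ∑ x, v (g • x) * v (k • x) := by
      symm
      refine Fintype.sum_equiv (MulAction.toPerm g) _ _ fun x => ?_
      simp only [MulAction.toPerm_apply]
      rw [smul_smul, inv_mul_cancel_right]
    rw [h5, hT] at h4
    omega
  refine signs_nine (Lv v 1) hm (fun (g : G) x => v (g • x)) ?_ ?_ hgk ?_
  · intro g x _
    rcases hS.val (g • x) with h | h | h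
    · exact Or.inl h
    · exact absurd h (hne _)
    · exact Or.inr h
  · intro g
    have h4 := hgk g 1
    have h5 : ∑ x ∈ Lv v 1, v (g • x) * v ((1 : G) • x) = ∑ x ∈ Lv v 1, v (g • x) := by
      refine Finset.sum_congr rfl fun x hx => ?_
      rw [one_smul, mem_Lv.1 hx, mul_one]
    rwa [h5] at h4
  · intro x _ y _ hxy
    by_contra hcon
    push Not at hcon
    exact hxy (hS.sep x y hcon)

end nine

end Pool.Agent.Y138.KC
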