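import Pool.Agent.Y138.KC.Ip
import Pool.Agent.Y138.KC.Defs

/-!
# The classification of the relations with three terms
-/

set_option autoImplicit false
set_option linter.unusedSectionVars false

namespace Pool.Agent.Y138.KC

open Finset Pool.Agent.W517.K3

section count

variable {G X : Type*} [Group G] [Finite G] [MulAction G X] [Fintype X] [DecidableEq X]
  {c : X → X} {v : X → ℤ} (hS : Sgn G c v)
include hS

/-- complete graphs -/
theorem complete_of_card {m r : ℕ} (hm : (Lv v 1).card = m) (hr : r + 1 = m)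
    (hO : ∀ x, v x = 1 → (Out G c v x).card = r) :
    ∀ a t, v a = 1 → v t = 1 → a ≠ t → ∃ e, Tri G v a (c t) e := by
  intro a t ha ht hne
  have h1 := Finset.eq_of_subset_of_card_le (Out_subset hS a ha) (by
    rw [Finset.card_erase_of_mem (mem_Lv.2 ha), hm, hO a ha]
    omega)
  have h2 : t ∈ Out G c v a := by
    rw [h1, Finset.mem_erase, mem_Lv]
    exact ⟨hne.symm, ht⟩
  exact (mem_Out.1 h2).2

/-- nine pairs and three elements of `T` -/
theorem no_nine_three (hX : Fintype.card X = 2 * 9) (hm : (Lv v 1).card = 3) {a b e : X}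
    (h : Tri G v a b e) : False := by
  classical
  obtain ⟨r, hr1, hr2, -, hr4, hN, hO, hZ, -, hsum, -⟩ := counts hS hX hm h
  have hr : r = 2 := by omega
  subst hr
  have hK := complete_of_card hS hm rfl hO
  have hle := rho_le_one hS hK
  set Z1 := (Lv v 0).filter (fun z => (rho G c v z).Nonempty) with hZ1
  set Z0 := (Lv v 0).filter (fun z => ¬ (rho G c v z).Nonempty) with hZ0
  have hcard1 : Z1.card = 6 := by
    have h1 : ∑ z ∈ Lv v 0, (rho G c v z).card = ∑ z ∈ Z1, 1 := by
      rw [hZ1, Finset.sum_filter]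
      refine Finset.sum_congr rfl fun z _ => ?_
      by_cases hz : (rho G c v z).Nonempty
      · rw [if_pos hz]
        have := hle z
        have := Finset.card_pos.2 hz
        omega
      · rw [if_neg hz, Finset.not_nonempty_iff_eq_empty.1 hz, Finset.card_empty]
    rw [Finset.sum_const, smul_eq_mul, mul_one] at h1
    rw [← h1, ← hsum]
  have hcard0 : Z0.card = 6 := by
    have h1 := Finset.card_filter_add_card_filter_not (s := Lv v 0)
      (fun z => (rho G c v z).Nonempty)
    rw [hZ] at h1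
    change Z1.card + Z0.card = _ at h1
    omega
  -- the elements of `T`
  obtain ⟨t1, t2, t3, h12, h13, h23, hT⟩ := Finset.card_eq_three.1 hm
  have hv : ∀ t, v t = 1 ↔ (t = t1 ∨ t = t2 ∨ t = t3) := by
    intro t
    rw [← mem_Lv, hT]
    simp
  have hv1 : v t1 = 1 := (hv t1).2 (Or.inl rfl)
  have hv2 : v t2 = 1 := (hv t2).2 (Or.inr (Or.inl rfl))
  have hv3 : v t3 = 1 := (hv t3).2 (Or.inr (Or.inr rfl))
  have hthird : ∀ a t, v a = 1 → v t = 1 → ∃ s, v s = 1 ∧ s ≠ a ∧ s ≠ t := by
    intro a t ha ht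
    have : ∃ s ∈ Lv v 1, s ∉ ({a, t} : Finset X) := by
      by_contra hcon
      push Not at hcon
      have h1 := Finset.card_le_card hcon
      have h2 := Finset.card_le_two (a := a) (b := t)
      omega
    obtain ⟨s, hs, hs'⟩ := this
    rw [Finset.mem_insert, Finset.mem_singleton, not_or] at hs'
    exact ⟨s, mem_Lv.1 hs, hs'.1, hs'.2⟩
  -- `Z0` is closed
  have hclosed : ∀ z ∈ Z0, ∀ b e, Tri G v z b e → b ∈ Z0 := by
    intro z hz b e hzbe
    rw [hZ0, mem_filter, mem_Lv, Finset.not_nonempty_iff_eq_empty] at hz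
    obtain ⟨hvz, hrz⟩ := hz
    have hno : ∀ q : X × X, ¬ (v q.1 = 1 ∧ v q.2 = 1 ∧ Tri G v q.1 (c q.2) z) := by
      intro q hq
      have := mem_rho.2 hq
      rw [hrz] at this
      exact absurd this (Finset.notMem_empty q)
    have h1 := hzbe 1
    simp only [one_smul] at h1
    have hvb : v b = 0 := by
      rcases hS.val b with h | h | h
      · exfalso
        refine hno (b, c e) ⟨h, ?_, ?_⟩
        · change v (c e) = 1
          rw [hS.odd]
          omega
        · change Tri G v b (c (c e)) z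
          rw [hS.cc]
          exact hzbe.rot
      · exact h
      · exfalso
        refine hno (e, c b) ⟨by change v e = 1; omega, ?_, ?_⟩
        · change v (c b) = 1
          rw [hS.odd]
          omega
        · change Tri G v e (c (c b)) z
          rw [hS.cc]
          exact hzbe.rot.swap'
    rw [hZ0, mem_filter, mem_Lv]
    refine ⟨hvb, ?_⟩
    rintro ⟨q, hq⟩
    rw [mem_rho] at hq
    obtain ⟨hq1, hq2, hq3⟩ := hq
    have hqne : q.1 ≠ q.2 := by
      intro h
      rw [← h] at hq3
      exact hq3.ne_c hS (hS.cc _).symm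
    obtain ⟨s, hs, hs1, hs2⟩ := hthird q.1 q.2 hq1 hq2
    obtain ⟨w1, hw1⟩ := hK q.1 s hq1 hs hs1.symm
    obtain ⟨w2, hw2⟩ := hK s q.2 hs hq2 hs2
    have hb : Tri G v b (c w1) (c w2) := by
      intro g
      have e1 := hq3 g
      have e2 := hw1 g
      have e3 := hw2 g
      rw [← hS.cg, hS.odd] at e1 e2 e3
      rw [← hS.cg, ← hS.cg, hS.odd, hS.odd]
      omega
    have hvw1 : v w1 = 0 := by
      have := hw1 1
      simp only [one_smul] at this
      rw [hS.odd] at this
      omega
    have hvw2 : v w2 = 0 := by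
      have := hw2 1
      simp only [one_smul] at this
      rw [hS.odd] at this
      omega
    have hw12 : w1 ≠ w2 := by
      intro h
      rw [← h] at hw2
      have h5 := Finset.card_le_one.1 (hle w1) (q.1, s) (mem_rho.2 ⟨hq1, hs, hw1⟩) (s, q.2)
        (mem_rho.2 ⟨hs, hq2, hw2⟩)
      exact hs1 (congrArg Prod.fst h5).symm
    have hsub : ({q.1, c q.2, c w1, c w2} : Finset X) ⊆ Nb G v b := by
      intro y hy
      simp only [Finset.mem_insert, Finset.mem_singleton] at hy
      rw [mem_Nb]
      rcases hy with rfl | rfl | rfl | rfl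
      · exact ⟨_, hq3.rot.rot⟩
      · exact ⟨_, hq3.rot.rot.swap⟩
      · exact ⟨_, hb⟩
      · exact ⟨_, hb.swap⟩
    have hc4 : ({q.1, c q.2, c w1, c w2} : Finset X).card = 4 := by
      rw [Finset.card_insert_of_notMem, Finset.card_insert_of_notMem,
        Finset.card_insert_of_notMem, Finset.card_singleton]
      · rw [Finset.mem_singleton]
        exact fun h => hw12 (c_inj hS h)
      · simp only [Finset.mem_insert, Finset.mem_singleton, not_or]
        refine ⟨fun h => ?_, fun h => ?_⟩ <;> have h6 := congrArg v h <;>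
          rw [hS.odd, hS.odd] at h6 <;> omega
      · simp only [Finset.mem_insert, Finset.mem_singleton, not_or]
        refine ⟨fun h => ?_, fun h => ?_, fun h => ?_⟩ <;> have h6 := congrArg v h <;>
          rw [hS.odd] at h6 <;> omega
    have heq := Finset.eq_of_subset_of_card_le hsub (by rw [hN b, hc4])
    have hzmem : z ∈ Nb G v b := mem_Nb.2 ⟨e, hzbe.swap'⟩
    rw [← heq] at hzmem
    simp only [Finset.mem_insert, Finset.mem_singleton] at hzmem
    rcases hzmem with h | h | h | h
    · rw [h] at hvz; omega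
    · rw [h, hS.odd] at hvz; omega
    · refine hno (s, q.1) ⟨hs, hq1, ?_⟩
      rw [h]
      exact edge_symm hS hw1
    · refine hno (q.2, s) ⟨hq2, hs, ?_⟩
      rw [h]
      exact edge_symm hS hw2
  obtain ⟨e12, he12⟩ := hK t1 t2 hv1 hv2 h12
  obtain ⟨e13, he13⟩ := hK t1 t3 hv1 hv3 h13
  obtain ⟨e32, he32⟩ := hK t3 t2 hv3 hv2 h23.symm
  obtain ⟨e23, he23⟩ := hK t2 t3 hv2 hv3 h23
  obtain ⟨z, hz⟩ : Z0.Nonempty := Finset.card_pos.1 (by omega)
  obtain ⟨g, hg⟩ := hS.trans t1 z
  have m1 : g • t1 ∈ Z0 := by rw [hg]; exact hz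
  have m2 : g • c t2 ∈ Z0 := hclosed _ m1 _ _ (he12.smul g)
  have m3 : g • c t3 ∈ Z0 := hclosed _ m1 _ _ (he13.smul g)
  have m4 : g • e12 ∈ Z0 := hclosed _ m1 _ _ (he12.swap.smul g)
  have m5 : g • e13 ∈ Z0 := hclosed _ m1 _ _ (he13.swap.smul g)
  have m6 : g • t3 ∈ Z0 := hclosed _ m2 _ _ (he32.swap'.smul g)
  have m7 : g • t2 ∈ Z0 := hclosed _ m3 _ _ (he23.swap'.smul g)
  let A : Finset X := {t1, t2, t3, c t2, c t3, e12, e13}
  have hA : A.image (fun x => g • x) ⊆ Z0 := by
    intro y hy
    rw [Finset.mem_image] at hy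
    obtain ⟨x, hx, rfl⟩ := hy
    simp only [A, Finset.mem_insert, Finset.mem_singleton] at hx
    rcases hx with rfl | rfl | rfl | rfl | rfl | rfl | rfl
    · exact m1
    · exact m7
    · exact m6
    · exact m2
    · exact m3
    · exact m4
    · exact m5
  have hve12 : v e12 = 0 := by
    have := he12 1
    simp only [one_smul] at this
    rw [hS.odd] at this
    omega
  have hve13 : v e13 = 0 := by
    have := he13 1
    simp only [one_smul] at this
    rw [hS.odd] at this
    omega
  have hvc2 : v (c t2) = -1 := by rw [hS.odd, hv2]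
  have hvc3 : v (c t3) = -1 := by rw [hS.odd, hv3]
  have hcA : A.card = 7 := by
    simp only [A]
    rw [Finset.card_insert_of_notMem, Finset.card_insert_of_notMem,
      Finset.card_insert_of_notMem, Finset.card_insert_of_notMem, Finset.card_insert_of_notMem,
      Finset.card_insert_of_notMem, Finset.card_singleton]
    · rw [Finset.mem_singleton]
      intro h
      rw [← h] at he13
      exact h23 (c_inj hS (he12.swap.unique hS he13.swap))
    · simp only [Finset.mem_insert, Finset.mem_singleton, not_or]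
      refine ⟨fun h => ?_, fun h => ?_⟩ <;> have h6 := congrArg v h <;> omega
    · simp only [Finset.mem_insert, Finset.mem_singleton, not_or]
      refine ⟨fun h => h23 (c_inj hS h), fun h => ?_, fun h => ?_⟩ <;>
        have h6 := congrArg v h <;> omega
    · simp only [Finset.mem_insert, Finset.mem_singleton, not_or]
      refine ⟨fun h => ?_, fun h => ?_, fun h => ?_, fun h => ?_⟩ <;>
        have h6 := congrArg v h <;> omega
    · simp only [Finset.mem_insert, Finset.mem_singleton, not_or]
      refine ⟨h23, fun h => ?_, fun h => ?_, fun h => ?_, fun h => ?_⟩ <;>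
        have h6 := congrArg v h <;> omega
    · simp only [Finset.mem_insert, Finset.mem_singleton, not_or]
      refine ⟨h12, h13, fun h => ?_, fun h => ?_, fun h => ?_, fun h => ?_⟩ <;>
        have h6 := congrArg v h <;> omega
  have h7 := Finset.card_le_card hA
  rw [Finset.card_image_of_injective _ (MulAction.injective g), hcA, hcard0] at h7
  omega

/-- **There are no relations with three terms outside the exceptional cases.** -/
theorem no_tri {d m : ℕ} (hX : Fintype.card X = 2 * d) (hm : (Lv v 1).card = m)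
    (hd : d ≤ 10) (hex : (d, m) ∉ exceptionalPairs) {a b e : X} (h : Tri G v a b e) : False := by
  obtain ⟨r, hr1, hr2, hr3, hr4, hN, hO, hZ, hmd, hsum, hle⟩ := counts hS hX hm h
  have h1 : m * r ≤ (2 * d - 2 * m) * r := by
    rw [hsum, ← hZ]
    calc ∑ z ∈ Lv v 0, (rho G c v z).card ≤ ∑ z ∈ Lv v 0, r := Finset.sum_le_sum hle
      _ = (Lv v 0).card * r := by rw [Finset.sum_const, smul_eq_mul]
  have h2 : m ≤ 2 * d - 2 * m := Nat.le_of_mul_le_mul_right h1 hr1
  have h3 : r + 1 = m → m * r ≤ 2 * d - 2 * m := by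
    intro hrm
    have hK := complete_of_card hS hm hrm hO
    rw [hsum, ← hZ]
    calc ∑ z ∈ Lv v 0, (rho G c v z).card ≤ ∑ z ∈ Lv v 0, 1 :=
          Finset.sum_le_sum fun z _ => rho_le_one hS hK z
      _ = (Lv v 0).card := by rw [Finset.sum_const, smul_eq_mul, mul_one]
  have h93 : ¬ (d = 9 ∧ m = 3) := by
    rintro ⟨rfl, rfl⟩
    exact no_nine_three hS hX hm h
  have h95 : ¬ (d = 9 ∧ m = 5) := by
    rintro ⟨rfl, rfl⟩
    obtain ⟨n, hn, hn0⟩ := exists_rel hS h
    have h4 := even_of_csum hS hn hn0 fun x => core hS hX (m := 5) hm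
      (Or.inr (Or.inr (Or.inr (Or.inr ⟨by norm_num, by norm_num⟩)))) hn hn0 x
    rw [hm] at h4
    exact absurd h4 (by decide)
  have hfin : ∀ d ∈ Finset.range 11, ∀ m ∈ Finset.range (d + 1), ∀ r ∈ Finset.range m,
      (1 ≤ r ∧ 3 ∣ d * r ∧ 2 ∣ m * r ∧ m ≤ 2 * d - 2 * m ∧
      (r + 1 = m → m * r ≤ 2 * d - 2 * m) ∧ ¬ (d = 9 ∧ m = 3) ∧ ¬ (d = 9 ∧ m = 5)) →
        (d, m) ∈ exceptionalPairs := by
    decide +kernel
  exact hex (hfin d (Finset.mem_range.2 (by omega)) m (Finset.mem_range.2 (by omega)) r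
    (Finset.mem_range.2 (by omega)) ⟨hr1, hr3, hr4, h2, h3, h93, h95⟩)

end count

end Pool.Agent.Y138.KC
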