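import Pool.Agent.W517.K3.Core

/-!
# Relations with three terms between signed translates
-/

set_option autoImplicit false
set_option linter.unusedSectionVars false

namespace Pool.Agent.Y138.KC

open Finset Pool.Agent.W517.K3

/-- Relations with three terms: the values of `v` at the translates of `a`, `b`, `e` have sum
zero. -/
def Tri (G : Type*) {X : Type*} [Group G] [MulAction G X] (v : X → ℤ) (a b e : X) : Prop :=
  ∀ g : G, v (g • a) + v (g • b) + v (g • e) = 0

section basic

variable {G X : Type*} [Group G] [MulAction G X] {c : X → X} {v : X → ℤ}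

theorem Tri.rot {a b e : X} (h : Tri G v a b e) : Tri G v b e a := fun g => by
  have := h g
  omega

theorem Tri.swap {a b e : X} (h : Tri G v a b e) : Tri G v a e b := fun g => by
  have := h g
  omega

theorem Tri.swap' {a b e : X} (h : Tri G v a b e) : Tri G v b a e := fun g => by
  have := h g
  omega

theorem Tri.smul {a b e : X} (h : Tri G v a b e) (k : G) : Tri G v (k • a) (k • b) (k • e) :=
  fun g => by
    have := h (g * k)
    simpa only [mul_smul] using this

theorem Tri.of_smul {a b e : X} (k : G) (h : Tri G v (k • a) (k • b) (k • e)) :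
    Tri G v a b e := by
  have := h.smul k⁻¹
  simpa only [inv_smul_smul] using this

variable (hS : Sgn G c v)
include hS

theorem Tri.neg {a b e : X} (h : Tri G v a b e) : Tri G v (c a) (c b) (c e) := fun g => by
  have := h g
  rw [← hS.cg, ← hS.cg, ← hS.cg, hS.odd, hS.odd, hS.odd]
  omega

theorem Tri.unique {a b e e' : X} (h : Tri G v a b e) (h' : Tri G v a b e') : e = e' :=
  hS.sep e e' fun g => by
    have := h g
    have := h' g
    omega

theorem exists_one (x : X) : ∃ g : G, v (g • x) = 1 := by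
  obtain ⟨y, hy⟩ := hS.ex
  obtain ⟨g, hg⟩ := hS.trans x y
  exact ⟨g, by rw [hg, hy]⟩

theorem Tri.ne {a b e : X} (h : Tri G v a b e) : a ≠ b := by
  rintro rfl
  obtain ⟨g, hg⟩ := exists_one hS a
  have h1 := h g
  rcases hS.val (g • e) with h2 | h2 | h2 <;> omega

theorem Tri.ne_c {a b e : X} (h : Tri G v a b e) : a ≠ c b := by
  rintro rfl
  obtain ⟨g, hg⟩ := exists_one hS e
  have h1 := h g
  rw [← hS.cg, hS.odd] at h1
  omega

theorem Tri.eq_of_first {a a' b e : X} (h : Tri G v a b e) (h' : Tri G v a' b e) : a = a' :=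
  (h.rot).unique hS h'.rot

end basic

section count

variable {G X : Type*} [Group G] [MulAction G X] [Fintype X] [DecidableEq X] {c : X → X}
  {v : X → ℤ}

open Classical in
/-- The elements which occur in a relation with three terms together with `a`. -/
noncomputable def Nb (G : Type*) {X : Type*} [Group G] [MulAction G X] [Fintype X] (v : X → ℤ)
    (a : X) : Finset X :=
  univ.filter (fun b => ∃ e, Tri G v a b e)

theorem mem_Nb {a b : X} : b ∈ Nb G v a ↔ ∃ e, Tri G v a b e := by
  simp [Nb]

theorem Nb_smul (k : G) (a b : X) : k • b ∈ Nb G v (k • a) ↔ b ∈ Nb G v a := by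
  rw [mem_Nb, mem_Nb]
  constructor
  · rintro ⟨e, he⟩
    refine ⟨k⁻¹ • e, Tri.of_smul k ?_⟩
    rwa [smul_inv_smul]
  · rintro ⟨e, he⟩
    exact ⟨k • e, he.smul k⟩

variable (hS : Sgn G c v)
include hS

theorem card_Nb (a a' : X) : (Nb G v a).card = (Nb G v a').card := by
  obtain ⟨g, rfl⟩ := hS.trans a a'
  refine Finset.card_bij (fun b _ => g • b) ?_ ?_ ?_
  · intro b hb
    exact (Nb_smul g a b).2 hb
  · intro b _ b' _ h
    exact smul_left_cancel g h
  · intro b hb
    refine ⟨g⁻¹ • b, ?_, smul_inv_smul g b⟩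
    rw [← Nb_smul g, smul_inv_smul]
    exact hb

/-- the points with value `i` -/
def Lv {X : Type*} [Fintype X] (v : X → ℤ) (i : ℤ) : Finset X := univ.filter (fun x => v x = i)

omit hS [DecidableEq X] [MulAction G X] [Group G] in
theorem mem_Lv {i : ℤ} {x : X} : x ∈ Lv v i ↔ v x = i := by simp [Lv]

/-- the number of the partners with value `i` -/
noncomputable def nbi (G : Type*) {X : Type*} [Group G] [MulAction G X] [Fintype X]
    (v : X → ℤ) (a : X) (i : ℤ) : ℕ :=
  ((Nb G v a).filter (fun b => v b = i)).card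

theorem nbi_eq (a : X) (i : ℤ) : nbi G v a i = nbi G v a (- v a - i) := by
  classical
  unfold nbi
  have key : ∀ b ∈ Nb G v a, ∃ e, Tri G v a b e := fun b hb => mem_Nb.1 hb
  choose! f hf using key
  have hv : ∀ b ∈ Nb G v a, v (f b) = - v a - v b := by
    intro b hb
    have := hf b hb 1
    simp only [one_smul] at this
    omega
  refine Finset.card_bij (fun b _ => f b) ?_ ?_ ?_
  · intro b hb
    rw [mem_filter] at hb ⊢
    refine ⟨mem_Nb.2 ⟨b, (hf b hb.1).swap⟩, ?_⟩
    rw [hv b hb.1, hb.2]
  · intro b hb b' hb' h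
    rw [mem_filter] at hb hb'
    have h1 := (hf b hb.1).swap
    have h2 := (hf b' hb'.1).swap
    rw [← h] at h2
    exact h1.unique hS h2
  · intro e he
    rw [mem_filter] at he
    obtain ⟨b, hb⟩ := mem_Nb.1 he.1
    have hb' : b ∈ Nb G v a := mem_Nb.2 ⟨e, hb.swap⟩
    refine ⟨b, mem_filter.2 ⟨hb', ?_⟩, ?_⟩
    · have := hb 1
      simp only [one_smul] at this
      omega
    · exact (hf b hb').unique hS hb.swap

theorem card_Nb_eq (a : X) : (Nb G v a).card = nbi G v a 1 + nbi G v a 0 + nbi G v a (-1) := by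
  classical
  unfold nbi
  rw [← Finset.card_union_of_disjoint, ← Finset.card_union_of_disjoint]
  · congr 1
    ext b
    simp only [mem_union, mem_filter]
    constructor
    · intro hb
      rcases hS.val b with h | h | h
      · exact Or.inl (Or.inl ⟨hb, h⟩)
      · exact Or.inl (Or.inr ⟨hb, h⟩)
      · exact Or.inr ⟨hb, h⟩
    · rintro ((h | h) | h) <;> exact h.1
  · rw [Finset.disjoint_left]
    intro b hb hb'
    simp only [mem_union, mem_filter] at hb hb'
    rcases hb with h | h <;> omega
  · rw [Finset.disjoint_left]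
    intro b hb hb'
    simp only [mem_filter] at hb hb'
    omega

theorem nbi_zero_of_two {a : X} {i : ℤ} (hi : i < -1 ∨ 1 < i) : nbi G v a i = 0 := by
  classical
  unfold nbi
  rw [Finset.card_eq_zero, Finset.filter_eq_empty_iff]
  intro b _ hb
  rcases hS.val b with h | h | h <;> omega

/-- the partners of an element of `T` -/
theorem card_Nb_one {a : X} (ha : v a = 1) : (Nb G v a).card = 2 * nbi G v a (-1) := by
  rw [card_Nb_eq hS, nbi_eq hS a 1, nbi_eq hS a 0, ha, nbi_zero_of_two hS (Or.inl (by norm_num))]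
  norm_num
  ring

theorem card_Nb_zero {z : X} (hz : v z = 0) : 2 * nbi G v z 1 ≤ (Nb G v z).card := by
  rw [card_Nb_eq hS, nbi_eq hS z (-1), hz]
  norm_num
  omega

open Classical in
/-- pairs of elements of `T` which form a relation with an element `z` with `v z = 0` -/
noncomputable def rho (G : Type*) {X : Type*} [Group G] [MulAction G X] [Fintype X]
    (c : X → X) (v : X → ℤ) (z : X) : Finset (X × X) :=
  (Lv v 1 ×ˢ Lv v 1).filter (fun q => Tri G v q.1 (c q.2) z)

omit hS in
theorem mem_rho {z : X} {q : X × X} : q ∈ rho G c v z ↔ v q.1 = 1 ∧ v q.2 = 1 ∧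
    Tri G v q.1 (c q.2) z := by
  simp only [rho, mem_filter, mem_product, mem_Lv, and_assoc]

theorem card_rho {z : X} (hz : v z = 0) : (rho G c v z).card = nbi G v z 1 := by
  classical
  unfold nbi
  refine Finset.card_bij (fun q _ => q.1) ?_ ?_ ?_
  · intro q hq
    rw [mem_rho] at hq
    rw [mem_filter]
    exact ⟨mem_Nb.2 ⟨c q.2, hq.2.2.rot.rot⟩, hq.1⟩
  · intro q hq q' hq' h
    rw [mem_rho] at hq hq'
    rw [← h] at hq'
    have := hq.2.2.swap.unique hS hq'.2.2.swap
    exact Prod.ext h (c_inj hS this)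
  · intro b hb
    rw [mem_filter] at hb
    obtain ⟨e, he⟩ := mem_Nb.1 hb.1
    have h1 := he 1
    simp only [one_smul] at h1
    refine ⟨(b, c e), ?_, rfl⟩
    rw [mem_rho]
    refine ⟨hb.2, ?_, ?_⟩
    · change v (c e) = 1
      rw [hS.odd]
      omega
    · change Tri G v b (c (c e)) z
      rw [hS.cc]
      exact he.rot

open Classical in
/-- the edges -/
noncomputable def Ed (G : Type*) {X : Type*} [Group G] [MulAction G X] [Fintype X]
    (c : X → X) (v : X → ℤ) : Finset (X × X) :=
  (Lv v 1 ×ˢ Lv v 1).filter (fun q => ∃ e, Tri G v q.1 (c q.2) e)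

omit hS in
theorem mem_Ed {q : X × X} : q ∈ Ed G c v ↔ v q.1 = 1 ∧ v q.2 = 1 ∧
    ∃ e, Tri G v q.1 (c q.2) e := by
  simp only [Ed, mem_filter, mem_product, mem_Lv, and_assoc]

/-- the number of edges is the sum of the numbers `rho` -/
theorem card_Ed_eq_sum : (Ed G c v).card = ∑ z ∈ Lv v 0, (rho G c v z).card := by
  classical
  rw [← Finset.card_biUnion]
  · congr 1
    ext q
    simp only [mem_biUnion, mem_Ed, mem_rho, mem_Lv]
    constructor
    · rintro ⟨h1, h2, e, he⟩
      refine ⟨e, ?_, h1, h2, he⟩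
      have := he 1
      simp only [one_smul] at this
      rw [hS.odd] at this
      omega
    · rintro ⟨z, -, h1, h2, he⟩
      exact ⟨h1, h2, z, he⟩
  · intro z _ z' _ hne
    rw [Function.onFun, Finset.disjoint_left]
    intro q hq hq'
    rw [mem_rho] at hq hq'
    exact hne (hq.2.2.unique hS hq'.2.2)

open Classical in
/-- The out-neighbours of an element of `T`. -/
noncomputable def Out (G : Type*) {X : Type*} [Group G] [MulAction G X] [Fintype X]
    (c : X → X) (v : X → ℤ) (a : X) : Finset X :=
  (Lv v 1).filter (fun t => ∃ e, Tri G v a (c t) e)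

omit hS in
theorem mem_Out {a t : X} : t ∈ Out G c v a ↔ v t = 1 ∧ ∃ e, Tri G v a (c t) e := by
  simp only [Out, mem_filter, mem_Lv]

theorem card_Out {a : X} : (Out G c v a).card = nbi G v a (-1) := by
  classical
  unfold nbi
  refine Finset.card_bij (fun t _ => c t) ?_ ?_ ?_
  · intro t ht
    rw [mem_Out] at ht
    rw [mem_filter, mem_Nb]
    exact ⟨ht.2, by rw [hS.odd, ht.1]⟩
  · intro t _ t' _ h
    exact c_inj hS h
  · intro b hb
    rw [mem_filter, mem_Nb] at hb
    refine ⟨c b, ?_, hS.cc b⟩
    rw [mem_Out, hS.odd, hS.cc]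
    exact ⟨by omega, hb.1⟩

theorem card_Ed {r : ℕ} (hr : ∀ a, v a = 1 → nbi G v a (-1) = r) :
    (Ed G c v).card = (Lv v 1).card * r := by
  classical
  have h1 : Ed G c v = (Lv v 1).biUnion (fun a => (Out G c v a).image (fun t => (a, t))) := by
    ext q
    simp only [mem_Ed, mem_biUnion, mem_Lv, mem_image, mem_Out]
    constructor
    · rintro ⟨h1, h2, h3⟩
      exact ⟨q.1, h1, q.2, ⟨h2, h3⟩, rfl⟩
    · rintro ⟨a, ha, t, ⟨ht, h3⟩, rfl⟩
      exact ⟨ha, ht, h3⟩
  rw [h1, Finset.card_biUnion]
  · rw [Finset.sum_congr rfl (fun a ha => ?_), Finset.sum_const, smul_eq_mul]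
    rw [Finset.card_image_of_injective _ (Prod.mk_right_injective a), card_Out hS,
      hr a (mem_Lv.1 ha)]
  · intro a _ a' _ hne
    rw [Function.onFun, Finset.disjoint_left]
    intro q hq hq'
    rw [mem_image] at hq hq'
    obtain ⟨t, -, rfl⟩ := hq
    obtain ⟨t', -, h⟩ := hq'
    exact hne (congrArg Prod.fst h).symm

theorem Out_subset (a : X) (ha : v a = 1) : Out G c v a ⊆ (Lv v 1).erase a := by
  intro t ht
  rw [mem_Out] at ht
  rw [mem_erase, mem_Lv]
  refine ⟨?_, ht.1⟩
  rintro rfl
  obtain ⟨e, he⟩ := ht.2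
  exact he.ne_c hS (hS.cc _).symm

theorem edge_symm {a t e : X} (h : Tri G v a (c t) e) : Tri G v t (c a) (c e) := by
  have := h.neg hS
  rw [hS.cc] at this
  exact this.swap'

/-- the number of edges is even -/
theorem even_Ed : 2 ∣ (Ed G c v).card := by
  classical
  have h1 : ((Ed G c v).card : ZMod 2) = 0 := by
    rw [← nsmul_one, ← Finset.sum_const]
    refine Finset.sum_involution (fun q _ => (q.2, q.1)) ?_ ?_ ?_ ?_
    · intro q _
      decide
    · intro q hq _ h
      rw [mem_Ed] at hq
      obtain ⟨e, he⟩ := hq.2.2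
      have h2 : q.2 = q.1 := congrArg Prod.fst h
      rw [h2] at he
      exact he.ne_c hS (hS.cc _).symm
    · intro q hq
      rw [mem_Ed] at hq ⊢
      obtain ⟨h2, h3, e, he⟩ := hq
      exact ⟨h3, h2, c e, edge_symm hS he⟩
    · intro q _
      rfl
  exact (ZMod.natCast_eq_zero_iff _ _).1 h1

/-- the number of the ordered relations is a multiple of three -/
theorem three_dvd {R : ℕ} (hR : ∀ a, (Nb G v a).card = R) : 3 ∣ Fintype.card X * R := by
  classical
  let A : Finset (X × X) := univ.filter (fun q => q.2 ∈ Nb G v q.1)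
  have hA : A.card = Fintype.card X * R := by
    have h1 : A = (univ : Finset X).biUnion (fun a => (Nb G v a).image (fun t => (a, t))) := by
      ext q
      simp only [A, mem_filter, mem_univ, true_and, mem_biUnion, mem_image]
      constructor
      · intro h
        exact ⟨q.1, q.2, h, rfl⟩
      · rintro ⟨a, t, ht, rfl⟩
        exact ht
    rw [h1, Finset.card_biUnion]
    · rw [Finset.sum_congr rfl (fun a _ => ?_), Finset.sum_const, smul_eq_mul, Finset.card_univ]
      rw [Finset.card_image_of_injective _ (Prod.mk_right_injective a), hR]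
    · intro a _ a' _ hne
      rw [Function.onFun, Finset.disjoint_left]
      intro q hq hq'
      rw [mem_image] at hq hq'
      obtain ⟨t, -, rfl⟩ := hq
      obtain ⟨t', -, h⟩ := hq'
      exact hne (congrArg Prod.fst h).symm
  have key : ∀ q : A, ∃ e, Tri G v q.1.1 q.1.2 e := by
    intro q
    have := q.2
    simp only [A, mem_filter, mem_univ, true_and] at this
    exact mem_Nb.1 this
  choose th hth using key
  have hmem : ∀ q : A, (q.1.2, th q) ∈ A := by
    intro q
    simp only [A, mem_filter, mem_univ, true_and]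
    exact mem_Nb.2 ⟨_, (hth q).rot⟩
  let f : Function.End A := fun q => ⟨(q.1.2, th q), hmem q⟩
  have hf1 : ∀ q : A, th (f q) = q.1.1 := by
    intro q
    exact (hth (f q)).unique hS (hth q).rot
  have hf : f ^ 3 ^ 1 = 1 := by
    funext q
    rw [pow_one]
    change f (f (f q)) = q
    apply Subtype.ext
    apply Prod.ext
    · change th (f q) = q.1.1
      exact hf1 q
    · change th (f (f q)) = q.1.2
      exact hf1 (f q)
  have h3 : Fact (Nat.Prime 3) := ⟨Nat.prime_three⟩
  have h4 := Equiv.Perm.card_fixedPoints_modEq (p := 3) (n := 1) hf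
  have h5 : Fintype.card (Function.fixedPoints f) = 0 := by
    rw [Fintype.card_eq_zero_iff]
    refine ⟨?_⟩
    rintro ⟨q, hq⟩
    have h6 : f q = q := hq
    have h7 : q.1.2 = q.1.1 := congrArg (fun q : A => q.1.1) h6
    exact (hth q).ne hS h7.symm
  rw [h5, Fintype.card_coe, hA] at h4
  exact (Nat.modEq_zero_iff_dvd).1 h4

end count

end Pool.Agent.Y138.KC
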